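import Pool.Agent.NU42.Act

/-!
# The splitting on a real curve `t + i η t`

`exists_line`: for `η` small in `C^1` with support in `|t| ≤ T` all hypotheses of `WO_act` and of
`QF_cut` hold.
-/

set_option autoImplicit false

open MeasureTheory Set Filter Topology

namespace NU42

open NUKer

noncomputable section

/-- a small displacement in the imaginary direction, supported in `|t| ≤ T` -/
structure Crv (lam T : ℝ) (η η' : ℝ → ℝ) : Prop where
  hd : ∀ t, HasDerivAt η (η' t) t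
  hc : Continuous η'
  h0 : ∀ t, |η t| ≤ lam
  h1 : ∀ t, |η' t| ≤ lam
  hz : ∀ t, T < |t| → η t = 0

variable {lam T : ℝ} {η η' ηX ηX' ηY ηY' : ℝ → ℝ}

lemma Crv.hz' (h : Crv lam T η η') (t : ℝ) (ht : T < |t|) : η' t = 0 := by
  have h1 : η =ᶠ[𝓝 t] fun _ => 0 := by
    filter_upwards [continuous_abs.continuousAt.eventually_mem (Ioi_mem_nhds ht)] with u hu
    exact h.hz u hu
  exact (h.hd t).unique ((hasDerivAt_const t (0 : ℝ)).congr_of_eventuallyEq h1)

lemma Crv.lam0 (h : Crv lam T η η') : 0 ≤ lam := (abs_nonneg _).trans (h.h0 0)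

lemma norm_iD (η : ℝ → ℝ) (t : ℝ) : ‖iD η t‖ = |η t| := by
  unfold iD
  rw [norm_mul, Complex.norm_I, mul_one, Complex.norm_real, Real.norm_eq_abs]

lemma Crv.der (h : Crv lam T η η') (t : ℝ) : HasDerivAt (iD η) (iD η' t) t :=
  (h.hd t).ofReal_comp.mul_const Complex.I

lemma iD_cont {η : ℝ → ℝ} (h : Continuous η) : Continuous (iD η) := by
  unfold iD
  fun_prop

lemma Crv.cont (h : Crv lam T η η') : Continuous η :=
  continuous_iff_continuousAt.2 fun t => (h.hd t).continuousAt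

/-- the curve is an admissible path -/
lemma Crv.path (h : Crv lam T η η') (hl : lam ≤ 1 / 20) :
    NUAct.Path (NUMF.l / 4) (1 / 2) 2 (fun t => t + iD η t) fun t => 1 + iD η' t where
  der t := (Complex.ofRealCLM.hasDerivAt (x := t)).add (h.der t)
  cont := continuous_const.add (iD_cont h.hc)
  im_le t := by
    have h3 : (1 : ℝ) / 20 ≤ NUMF.l / 4 := by
      unfold NUMF.l
      have := Real.pi_gt_three
      linarith
    have e : ((t : ℂ) + iD η t).im = η t := by simp [iD]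
    rw [e]
    linarith [h.h0 t]
  dle t := by
    refine (norm_add_le _ _).trans ?_
    rw [norm_one, norm_iD]
    linarith [h.h1 t]
  c_pos := by norm_num
  c_le := by norm_num
  mono u t hut := by
    have e : (((t : ℂ) + iD η t) - (u + iD η u)).re = t - u := by simp [iD]
    rw [e]
    linarith
  near t := by
    have e : ((t : ℂ) + iD η t) - t = iD η t := by ring
    rw [e, norm_iD]
    linarith [h.h0 t]

/-- **the hypotheses of the splitting for curves** -/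
theorem exists_line : ∃ K : ℝ, 20 ≤ K ∧ ∀ (lam T : ℝ) (ηX ηX' ηY ηY' : ℝ → ℝ),
    Crv lam T ηX ηX' → Crv lam T ηY ηY' → K * lam ≤ 1 →
    Small (iD ηX) (iD ηX') (iD ηY) (iD ηY') ∧
    (∀ a, NUAct.Path (NUMF.l / 4) (1 / 2) 2 (zz (iD ηX) (iD ηY) a) (zz1 (iD ηX') (iD ηY') a)) ∧
    (∀ a d, Bk (K * lam) (kd (iD ηX) (iD ηX') (iD ηY) (iD ηY') a d)) ∧
    (∀ a d t t', |kd (iD ηX) (iD ηX') (iD ηY) (iD ηY') a d t t'| ≤
      K * lam * Real.exp (-2 * |t - t'|)) ∧
    (∀ a d t t', T < |t| → T < |t'| → kd (iD ηX) (iD ηX') (iD ηY) (iD ηY') a d t t' = 0) ∧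
    ∀ (Rb : ℝ) (b : ℝ → ℝ), T ≤ Rb → (∀ t, |t| ≤ Rb → b t = 1) → (∀ t, 0 ≤ b t) → (∀ t, b t ≤ 1) →
      ∀ a d t t', |kd (iD ηX) (iD ηX') (iD ηY) (iD ηY') a d t t' -
        b t * b t' * kd (iD ηX) (iD ηX') (iD ηY) (iD ηY') a d t t'| ≤
        K * lam * Real.exp (-2 * (Rb - T)) := by
  obtain ⟨K1, hK1, H1⟩ := exists_small
  obtain ⟨K2, hK2, H2⟩ := exists_glob_w
  obtain ⟨K3, hK3, H3⟩ := exists_glob_g
  obtain ⟨K4, hK4, H4⟩ := exists_dec_w
  obtain ⟨K5, hK5, H5⟩ := exists_dec_g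
  refine ⟨20 + K1 + K2 + K3 + K4 + K5, by linarith, fun lam T ηX ηX' ηY ηY' hX hY hK => ?_⟩
  have hl := hX.lam0
  have m1 : 0 ≤ K1 * lam := by positivity
  have m2 : 0 ≤ K2 * lam := by positivity
  have m3 : 0 ≤ K3 * lam := by positivity
  have m4 : 0 ≤ K4 * lam := by positivity
  have m5 : 0 ≤ K5 * lam := by positivity
  obtain ⟨K, hKd⟩ : ∃ K : ℝ, K = 20 + K1 + K2 + K3 + K4 + K5 := ⟨_, rfl⟩
  have n0 : lam ≤ 1 / 20 := by linarith
  rw [← hKd] at hK ⊢
  have k1 : K1 * lam ≤ 1 := by rw [hKd] at hK; linarith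
  have k2 : K2 * lam ≤ 1 := by rw [hKd] at hK; linarith
  have k3 : K3 * lam ≤ 1 := by rw [hKd] at hK; linarith
  have k4 : K4 * lam ≤ 1 := by rw [hKd] at hK; linarith
  have k5 : K5 * lam ≤ 1 := by rw [hKd] at hK; linarith
  have l2 : K2 * lam ≤ K * lam := by rw [hKd]; nlinarith
  have l3 : K3 * lam ≤ K * lam := by rw [hKd]; nlinarith
  have l4 : K4 * lam ≤ K * lam := by rw [hKd]; nlinarith
  have l5 : K5 * lam ≤ K * lam := by rw [hKd]; nlinarith
  have nX : ∀ t, ‖iD ηX t‖ ≤ lam := fun t => by rw [norm_iD]; exact hX.h0 t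
  have nX' : ∀ t, ‖iD ηX' t‖ ≤ lam := fun t => by rw [norm_iD]; exact hX.h1 t
  have nY : ∀ t, ‖iD ηY t‖ ≤ lam := fun t => by rw [norm_iD]; exact hY.h0 t
  have nY' : ∀ t, ‖iD ηY' t‖ ≤ lam := fun t => by rw [norm_iD]; exact hY.h1 t
  have cX := iD_cont hX.cont
  have cY := iD_cont hY.cont
  have hs := H1 lam (iD ηX) (iD ηX') (iD ηY) (iD ηY') hX.der (iD_cont hX.hc) hY.der (iD_cont hY.hc)
    nX nX' nY nY' k1
  have gX := H2 lam (iD ηX) (iD ηX') hX.der (iD_cont hX.hc) nX nX' k2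
  have gY := H2 lam (iD ηY) (iD ηY') hY.der (iD_cont hY.hc) nY nY' k2
  have gXY := H3 lam (iD ηX) (iD ηY) cX cY nX nY k3
  have gYX := H3 lam (iD ηY) (iD ηX) cY cX nY nX k3
  have hdec : ∀ a d t t', |kd (iD ηX) (iD ηX') (iD ηY) (iD ηY') a d t t'| ≤
      K * lam * Real.exp (-2 * |t - t'|) := by
    intro a d t t'
    have he := (Real.exp_pos (-2 * |t - t'|)).le
    cases a <;> cases d
    · exact (H4 lam ηY ηY' hY.hd hY.hc hY.h0 hY.h1 k4 t t').trans (mul_le_mul_of_nonneg_right l4 he)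
    · exact (H5 lam ηY ηX hY.h0 hX.h0 k5 t t').trans (mul_le_mul_of_nonneg_right l5 he)
    · exact (H5 lam ηX ηY hX.h0 hY.h0 k5 t t').trans (mul_le_mul_of_nonneg_right l5 he)
    · exact (H4 lam ηX ηX' hX.hd hX.hc hX.h0 hX.h1 k4 t t').trans (mul_le_mul_of_nonneg_right l4 he)
  have hz : ∀ a d t t', T < |t| → T < |t'| →
      kd (iD ηX) (iD ηX') (iD ηY) (iD ηY') a d t t' = 0 := by
    intro a d t t' ht ht'
    have x1 : iD ηX t = 0 := by simp [iD, hX.hz t ht]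
    have x2 : iD ηX t' = 0 := by simp [iD, hX.hz t' ht']
    have x3 : iD ηX' t = 0 := by simp [iD, hX.hz' t ht]
    have y1 : iD ηY t = 0 := by simp [iD, hY.hz t ht]
    have y2 : iD ηY t' = 0 := by simp [iD, hY.hz t' ht']
    have y3 : iD ηY' t = 0 := by simp [iD, hY.hz' t ht]
    cases a <;> cases d
    · exact kw_zero hY.der (iD_cont hY.hc) y1 y2 y3
    · exact kg_zero y1 x2
    · exact kg_zero x1 y2
    · exact kw_zero hX.der (iD_cont hX.hc) x1 x2 x3
  refine ⟨hs, ?_, ?_, hdec, hz, ?_⟩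
  · intro a
    cases a
    · exact hY.path n0
    · exact hX.path n0
  · intro a d
    cases a <;> cases d
    · exact ⟨gY.2.2, fun t t' => (gY.2.1 t t').trans l2⟩
    · exact ⟨gYX.2.2, fun t t' => (gYX.2.1 t t').trans l3⟩
    · exact ⟨gXY.2.2, fun t t' => (gXY.2.1 t t').trans l3⟩
    · exact ⟨gX.2.2, fun t t' => (gX.2.1 t t').trans l2⟩
  · intro Rb b hT hb1 hb0 hb2 a d t t'
    exact cut_rem (by rw [hKd]; positivity) (hdec a d) (hz a d) hT hb1 hb0 hb2 t t'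

end

end NU42
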