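import Pool.Agent.NUKer.Glob

/-!
# Whole line statistics `nuF`, `nuF2`: linearity, bounds, expansion
-/

set_option autoImplicit false

open MeasureTheory Set Filter Topology

namespace NU42

open NUKer

noncomputable section

/-- an integrable continuous density -/
structure Dens (ρ : ℝ → ℝ) : Prop where
  int : Integrable ρ
  nonneg : ∀ t, 0 ≤ ρ t
  cont : Continuous ρ

/-- a bounded continuous kernel -/
structure Bk (C : ℝ) (κ : ℝ → ℝ → ℝ) : Prop where
  cont : Continuous fun p : ℝ × ℝ => κ p.1 p.2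
  le : ∀ t t', |κ t t'| ≤ C

variable {ι ι' : Type*} [Fintype ι] [Fintype ι'] {ρ ρ' : ℝ → ℝ} {C C' : ℝ} {κ κ' : ℝ → ℝ → ℝ}

lemma Bk.C0 (h : Bk C κ) : 0 ≤ C := (abs_nonneg _).trans (h.le 0 0)

lemma Bk.right (h : Bk C κ) (t : ℝ) : Continuous (κ t) :=
  h.cont.comp (by fun_prop : Continuous fun t' => (t, t'))

lemma Bk.left (h : Bk C κ) (t' : ℝ) : Continuous fun t => κ t t' :=
  h.cont.comp (by fun_prop : Continuous fun t => (t, t'))

lemma Bk.swap (h : Bk C κ) : Bk C fun t t' => κ t' t :=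
  ⟨h.cont.comp (by fun_prop : Continuous fun p : ℝ × ℝ => (p.2, p.1)), fun t t' => h.le t' t⟩

lemma Bk.sub (h : Bk C κ) (h' : Bk C' κ') : Bk (C + C') fun t t' => κ t t' - κ' t t' :=
  ⟨h.cont.sub h'.cont, fun t t' => (abs_sub _ _).trans (add_le_add (h.le t t') (h'.le t t'))⟩

lemma Bk.smul (h : Bk C κ) (c : ℝ) : Bk (|c| * C) fun t t' => c * κ t t' :=
  ⟨h.cont.const_mul c, fun t t' => by
    rw [abs_mul]; exact mul_le_mul_of_nonneg_left (h.le t t') (abs_nonneg _)⟩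

lemma Bk.cut (h : Bk C κ) {R : ℝ} {b : ℝ → ℝ} (hb : Continuous b) (hb1 : ∀ t, |b t| ≤ 1) :
    Bk C fun t t' => b t * b t' * κ t t' := by
  refine ⟨?_, fun t t' => ?_⟩
  · have := h.cont
    fun_prop
  · have h0 := h.C0
    rw [abs_mul, abs_mul]
    calc |b t| * |b t'| * |κ t t'| ≤ 1 * 1 * C := by
          have := hb1 t
          have := hb1 t'
          have := h.le t t'
          gcongr
      _ = C := by ring

/-- bounded continuous functions are integrable against a density -/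
lemma int_bd (hρ : Dens ρ) {f : ℝ → ℝ} (hf : Continuous f) {C : ℝ} (hC : ∀ t, |f t| ≤ C) :
    Integrable fun t => f t * ρ t := by
  refine (hρ.int.const_mul C).mono' (hf.aestronglyMeasurable.mul hρ.int.aestronglyMeasurable)
    (ae_of_all _ fun t => ?_)
  rw [norm_mul, Real.norm_eq_abs, Real.norm_of_nonneg (hρ.nonneg t)]
  exact mul_le_mul_of_nonneg_right (hC t) (hρ.nonneg t)

lemma abs_int_le (hρ : Dens ρ) {f : ℝ → ℝ} {C : ℝ} (hC : ∀ t, |f t| ≤ C) :
    |∫ t, f t * ρ t| ≤ C * ∫ t, ρ t := by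
  rw [← integral_const_mul, ← Real.norm_eq_abs]
  refine norm_integral_le_of_norm_le (hρ.int.const_mul C) (ae_of_all _ fun t => ?_)
  rw [norm_mul, Real.norm_eq_abs, Real.norm_of_nonneg (hρ.nonneg t)]
  exact mul_le_mul_of_nonneg_right (hC t) (hρ.nonneg t)

lemma nuF_sub (hρ : Dens ρ) (s : ι → ℝ) {f g : ℝ → ℝ} (hf : Continuous f) (hg : Continuous g)
    {C C' : ℝ} (hC : ∀ t, |f t| ≤ C) (hC' : ∀ t, |g t| ≤ C') :
    nuF ρ s (fun t => f t - g t) = nuF ρ s f - nuF ρ s g := by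
  unfold nuF
  simp only [sub_mul]
  rw [integral_sub (int_bd hρ hf hC) (int_bd hρ hg hC'), Finset.sum_sub_distrib]
  ring

lemma nuF_smul (c : ℝ) (s : ι → ℝ) (f : ℝ → ℝ) : nuF ρ s (fun t => c * f t) = c * nuF ρ s f := by
  unfold nuF
  simp only [mul_assoc]
  rw [integral_const_mul, ← Finset.mul_sum]
  ring

/-- total mass -/
def tm (ι : Type*) [Fintype ι] (ρ : ℝ → ℝ) : ℝ := (Fintype.card ι : ℝ) + ∫ t, ρ t

lemma tm_nonneg (hρ : Dens ρ) : 0 ≤ tm ι ρ := by
  unfold tm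
  have : 0 ≤ ∫ t, ρ t := integral_nonneg fun t => hρ.nonneg t
  positivity

lemma abs_nuF_le (hρ : Dens ρ) (s : ι → ℝ) {f : ℝ → ℝ} {C : ℝ} (hC : ∀ t, |f t| ≤ C) :
    |nuF ρ s f| ≤ C * tm ι ρ := by
  unfold nuF tm
  refine (abs_sub _ _).trans ?_
  have h1 : |∑ i, f (s i)| ≤ C * (Fintype.card ι : ℝ) := by
    refine (Finset.abs_sum_le_sum_abs _ _).trans ?_
    calc ∑ i, |f (s i)| ≤ ∑ _i : ι, C := Finset.sum_le_sum fun i _ => hC _
      _ = _ := by simp [mul_comm]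
  have h2 := abs_int_le hρ hC
  linarith

lemma nuF_cont (hρ : Dens ρ) (s : ι → ℝ) (h : Bk C κ) : Continuous fun t => nuF ρ s (κ t) := by
  unfold nuF
  refine Continuous.sub ?_ ?_
  · exact continuous_finsetSum _ fun i _ => h.left (s i)
  · refine continuous_of_dominated (F := fun t t' => κ t t' * ρ t') (bound := fun t' => C * ρ t')
      (fun t => ?_) (fun t => ae_of_all _ fun t' => ?_) (hρ.int.const_mul C)
      (ae_of_all _ fun t' => ?_)
    · exact ((h.right t).mul hρ.cont).aestronglyMeasurable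
    · rw [norm_mul, Real.norm_eq_abs, Real.norm_of_nonneg (hρ.nonneg t')]
      exact mul_le_mul_of_nonneg_right (h.le t t') (hρ.nonneg t')
    · exact (h.left t').mul continuous_const

lemma cv_cont (hρ : Dens ρ) (h : Bk C κ) : Continuous fun t => ∫ u, κ t u * ρ u := by
  have := nuF_cont (ι := Fin 0) hρ (fun i => i.elim0) h
  unfold nuF at this
  simp only [Finset.univ_eq_empty, Finset.sum_empty, zero_sub] at this
  have h2 := this.neg
  refine h2.congr fun t => ?_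
  simp

lemma nuF2_sub (hρ : Dens ρ) (hρ' : Dens ρ') (s : ι → ℝ) (s' : ι' → ℝ) (h : Bk C κ) (h' : Bk C' κ') :
    nuF2 ρ ρ' s s' (fun t t' => κ t t' - κ' t t') = nuF2 ρ ρ' s s' κ - nuF2 ρ ρ' s s' κ' := by
  unfold nuF2
  have e : ∀ t, nuF ρ' s' (fun t' => κ t t' - κ' t t') = nuF ρ' s' (κ t) - nuF ρ' s' (κ' t) :=
    fun t => nuF_sub hρ' s' (h.right t) (h'.right t) (h.le t) (h'.le t)
  simp only [e]
  exact nuF_sub hρ s (nuF_cont hρ' s' h) (nuF_cont hρ' s' h') (fun t => abs_nuF_le hρ' s' (h.le t))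
    fun t => abs_nuF_le hρ' s' (h'.le t)

lemma nuF2_smul (c : ℝ) (s : ι → ℝ) (s' : ι' → ℝ) (κ : ℝ → ℝ → ℝ) :
    nuF2 ρ ρ' s s' (fun t t' => c * κ t t') = c * nuF2 ρ ρ' s s' κ := by
  unfold nuF2
  simp only [nuF_smul]

lemma abs_nuF2_le (hρ : Dens ρ) (hρ' : Dens ρ') (s : ι → ℝ) (s' : ι' → ℝ)
    (h : ∀ t t', |κ t t'| ≤ C) : |nuF2 ρ ρ' s s' κ| ≤ C * tm ι' ρ' * tm ι ρ :=
  abs_nuF_le hρ s fun t => abs_nuF_le hρ' s' (h t)

/-- comparison of two kernels -/
lemma nuF2_diff (hρ : Dens ρ) (hρ' : Dens ρ') (s : ι → ℝ) (s' : ι' → ℝ) (h : Bk C κ) (h' : Bk C' κ')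
    {ε : ℝ} (he : ∀ t t', |κ t t' - κ' t t'| ≤ ε) :
    |nuF2 ρ ρ' s s' κ - nuF2 ρ ρ' s s' κ'| ≤ ε * tm ι' ρ' * tm ι ρ := by
  rw [← nuF2_sub hρ hρ' s s' h h']
  exact abs_nuF2_le hρ hρ' s s' he

/-- expansion of the bilinear form -/
lemma nuF2_expand (hρ : Dens ρ) (hρ' : Dens ρ') (s : ι → ℝ) (s' : ι' → ℝ) (h : Bk C κ) :
    nuF2 ρ ρ' s s' κ = ∑ i, ∑ j, κ (s i) (s' j) - ∑ i, (∫ u, κ (s i) u * ρ' u) -
      ∑ j, (∫ t, κ t (s' j) * ρ t) + ∫ t, (∫ u, κ t u * ρ' u) * ρ t := by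
  unfold nuF2 nuF
  have e1 : ∀ t, (∑ j, κ t (s' j) - ∫ u, κ t u * ρ' u) * ρ t =
      ∑ j, κ t (s' j) * ρ t - (∫ u, κ t u * ρ' u) * ρ t := by
    intro t
    rw [sub_mul, Finset.sum_mul]
  simp only [e1]
  have i1 : ∀ j, Integrable fun t => κ t (s' j) * ρ t := fun j =>
    int_bd hρ (h.left _) fun t => h.le t _
  have i2 : Integrable fun t => (∫ u, κ t u * ρ' u) * ρ t :=
    int_bd hρ (cv_cont hρ' h) fun t => abs_int_le hρ' (h.le t)
  rw [integral_sub (integrable_finsetSum _ fun j _ => i1 j) i2, integral_finsetSum _ fun j _ => i1 j,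
    Finset.sum_sub_distrib]
  ring

/-- transposition -/
lemma nuF2_swap (hρ : Dens ρ) (hρ' : Dens ρ') (s : ι → ℝ) (s' : ι' → ℝ) (h : Bk C κ) :
    nuF2 ρ' ρ s' s (fun t t' => κ t' t) = nuF2 ρ ρ' s s' κ := by
  rw [nuF2_expand hρ' hρ s' s h.swap, nuF2_expand hρ hρ' s s' h, Finset.sum_comm]
  have e : ∫ t, (∫ u, κ u t * ρ u) * ρ' t = ∫ t, (∫ u, κ t u * ρ' u) * ρ t := by
    simp only [← integral_mul_const]
    have hi : Integrable (Function.uncurry fun t u => κ u t * ρ u * ρ' t) (volume.prod volume) := by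
      have h1 : Integrable (fun p : ℝ × ℝ => C * (ρ' p.1 * ρ p.2)) (volume.prod volume) :=
        (hρ'.int.mul_prod hρ.int).const_mul C
      refine h1.mono' ?_ (ae_of_all _ fun p => ?_)
      · refine Continuous.aestronglyMeasurable ?_
        have c1 := h.cont.comp (by fun_prop : Continuous fun p : ℝ × ℝ => (p.2, p.1))
        have c2 := hρ.cont.comp (continuous_snd (X := ℝ) (Y := ℝ))
        have c3 := hρ'.cont.comp (continuous_fst (X := ℝ) (Y := ℝ))
        exact (c1.mul c2).mul c3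
      · simp only [Function.uncurry, norm_mul, Real.norm_eq_abs, abs_of_nonneg (hρ.nonneg _),
          abs_of_nonneg (hρ'.nonneg _)]
        have h2 := h.le p.2 p.1
        have h3 := hρ.nonneg p.2
        have h4 := hρ'.nonneg p.1
        calc |κ p.2 p.1| * ρ p.2 * ρ' p.1 ≤ C * ρ p.2 * ρ' p.1 := by gcongr
          _ = _ := by ring
    rw [integral_integral_swap hi]
    refine integral_congr_ae (ae_of_all _ fun t => ?_)
    simp only
    refine integral_congr_ae (ae_of_all _ fun u => ?_)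
    simp only
    ring
  rw [e]
  ring

end

end NU42
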