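import Pool.Agent.NUKer.Pair
import Pool.Agent.NUE.Inst

/-!
# The positive gas `W_O` on displaced lines and its exact decomposition

Quanta of the two species at the real parameters `t : Fin p → ℝ` (species `X`), `t' : Fin n → ℝ`
(species `Y`), actual positions `ζ = t + D t` with the complex displacements `DX`, `DY` and their
derivatives `DX1`, `DY1`; `a`, `a'` are arbitrary nonnegative one body factors.

* `WO DX DX1 DY DY1 a a' t t'`: modulus of all pair functions, Jacobians and one body factors;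
* `om = w g`: the common pair function `ω`;
* `WO_eq`: `WO = ∏ ω ∏ ω br2 g exp (1/2 ∑∑ kw + 1/2 ∑∑ kw + ∑∑ kg) ∏ a ∏ a'`.
-/

set_option autoImplicit false

open MeasureTheory Set Filter Topology

namespace NU42

open NUKer

noncomputable section

/-- pair function of the common (one component) gas -/
def om (t : ℝ) : ℝ := NUMF.w t * NUMF.g t

/-- products of the common pair function -/
def pom {p : ℕ} (t : Fin p → ℝ) : ℝ := ∏ i, ∏ j ∈ Finset.Ioi i, om (t i - t j)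

/-- own pair products on the displaced line -/
def ow {p : ℕ} (D : ℝ → ℂ) (t : Fin p → ℝ) : ℝ :=
  ∏ i, ∏ j ∈ Finset.Ioi i, ‖wcx ((t i + D (t i)) - (t j + D (t j)))‖

/-- cross pair products on the displaced lines -/
def cr {p n : ℕ} (D D' : ℝ → ℂ) (t : Fin p → ℝ) (t' : Fin n → ℝ) : ℝ :=
  ∏ i, ∏ j, ‖gcx ((t i + D (t i)) - (t' j + D' (t' j)))‖

/-- one body factors with the Jacobian -/
def ob {p : ℕ} (D1 : ℝ → ℂ) (a : ℝ → ℝ) (t : Fin p → ℝ) : ℝ :=
  ∏ i, (‖1 + D1 (t i)‖ * a (t i))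

/-- **the positive gas** -/
def WO {p n : ℕ} (DX DX1 DY DY1 : ℝ → ℂ) (a a' : ℝ → ℝ) (t : Fin p → ℝ) (t' : Fin n → ℝ) : ℝ :=
  ow DX t * ow DY t' * cr DX DY t t' * (ob DX1 a t * ob DY1 a' t')

variable {p n : ℕ}

lemma ow_nonneg (D : ℝ → ℂ) (t : Fin p → ℝ) : 0 ≤ ow D t :=
  Finset.prod_nonneg fun _ _ => Finset.prod_nonneg fun _ _ => norm_nonneg _

lemma cr_nonneg (D D' : ℝ → ℂ) (t : Fin p → ℝ) (t' : Fin n → ℝ) : 0 ≤ cr D D' t t' :=
  Finset.prod_nonneg fun _ _ => Finset.prod_nonneg fun _ _ => norm_nonneg _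

lemma ob_nonneg (D1 : ℝ → ℂ) {a : ℝ → ℝ} (ha : ∀ t, 0 ≤ a t) (t : Fin p → ℝ) : 0 ≤ ob D1 a t :=
  Finset.prod_nonneg fun _ _ => mul_nonneg (norm_nonneg _) (ha _)

lemma WO_nonneg (DX DX1 DY DY1 : ℝ → ℂ) {a a' : ℝ → ℝ} (ha : ∀ t, 0 ≤ a t) (ha' : ∀ t, 0 ≤ a' t)
    (t : Fin p → ℝ) (t' : Fin n → ℝ) : 0 ≤ WO DX DX1 DY DY1 a a' t t' :=
  mul_nonneg (mul_nonneg (mul_nonneg (ow_nonneg _ _) (ow_nonneg _ _)) (cr_nonneg _ _ _ _))
    (mul_nonneg (ob_nonneg _ ha _) (ob_nonneg _ ha' _))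

lemma om_nonneg (t : ℝ) : 0 ≤ om t := by
  unfold om NUMF.w
  have h1 := NUMF.cm_r t
  have h2 := NUMF.g_pos t
  have h3 := Real.cosh_pos (2 * t)
  positivity

lemma pom_nonneg (t : Fin p → ℝ) : 0 ≤ pom t :=
  Finset.prod_nonneg fun _ _ => Finset.prod_nonneg fun _ _ => om_nonneg _

@[fun_prop]
lemma wcx_meas : Measurable wcx := by
  unfold wcx
  fun_prop

@[fun_prop]
lemma gcx_meas : Measurable gcx := by
  unfold gcx
  fun_prop

@[fun_prop]
lemma om_meas : Measurable om := by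
  unfold om NUMF.w NUMF.g
  fun_prop

lemma pom_meas : Measurable (pom : (Fin p → ℝ) → ℝ) := by
  unfold pom
  exact Finset.measurable_prod _ fun i _ => Finset.measurable_prod _ fun j _ => by fun_prop

lemma ow_meas {D : ℝ → ℂ} (hD : Measurable D) : Measurable (ow D : (Fin p → ℝ) → ℝ) := by
  unfold ow
  exact Finset.measurable_prod _ fun i _ => Finset.measurable_prod _ fun j _ => by fun_prop

lemma cr_meas {D D' : ℝ → ℂ} (hD : Measurable D) (hD' : Measurable D') :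
    Measurable fun x : (Fin p → ℝ) × (Fin n → ℝ) => cr D D' x.1 x.2 := by
  unfold cr
  exact Finset.measurable_prod _ fun i _ => Finset.measurable_prod _ fun j _ => by fun_prop

lemma ob_meas {D1 : ℝ → ℂ} (hD : Measurable D1) {a : ℝ → ℝ} (ha : Measurable a) :
    Measurable (ob D1 a : (Fin p → ℝ) → ℝ) := by
  unfold ob
  exact Finset.measurable_prod _ fun i _ => by fun_prop

lemma WO_meas {DX DX1 DY DY1 : ℝ → ℂ} {a a' : ℝ → ℝ} (h1 : Measurable DX) (h2 : Measurable DX1)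
    (h3 : Measurable DY) (h4 : Measurable DY1) (h5 : Measurable a) (h6 : Measurable a') :
    Measurable fun x : (Fin p → ℝ) × (Fin n → ℝ) => WO DX DX1 DY DY1 a a' x.1 x.2 := by
  unfold WO
  have e1 := (ow_meas h1 (p := p)).comp
    (measurable_fst : Measurable fun x : (Fin p → ℝ) × (Fin n → ℝ) => x.1)
  have e2 := (ow_meas h3 (p := n)).comp
    (measurable_snd : Measurable fun x : (Fin p → ℝ) × (Fin n → ℝ) => x.2)
  have e3 := cr_meas h1 h3 (p := p) (n := n)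
  have e4 := (ob_meas h2 h5 (p := p)).comp
    (measurable_fst : Measurable fun x : (Fin p → ℝ) × (Fin n → ℝ) => x.1)
  have e5 := (ob_meas h4 h6 (p := n)).comp
    (measurable_snd : Measurable fun x : (Fin p → ℝ) × (Fin n → ℝ) => x.2)
  exact ((e1.mul e2).mul e3).mul (e4.mul e5)

/-- sum of all pair kernels, the diagonal (Jacobians) included -/
def KE (DX DX1 DY DY1 : ℝ → ℂ) (t : Fin p → ℝ) (t' : Fin n → ℝ) : ℝ :=
  1 / 2 * ∑ i, ∑ j, kw DX DX1 (t i) (t j) + 1 / 2 * ∑ i, ∑ j, kw DY DY1 (t' i) (t' j) +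
    ∑ i, ∑ j, kg DX DY (t i) (t' j)

lemma prod_w (t : Fin p → ℝ) : ∏ i, ∏ j ∈ Finset.Ioi i, NUMF.w (t i - t j) =
    pom t / ∏ i, ∏ j ∈ Finset.Ioi i, NUMF.g (t i - t j) := by
  have h : 0 < ∏ i, ∏ j ∈ Finset.Ioi i, NUMF.g (t i - t j) :=
    Finset.prod_pos fun i _ => Finset.prod_pos fun j _ => NUMF.g_pos _
  rw [eq_div_iff h.ne', ← Finset.prod_mul_distrib]
  unfold pom om
  exact Finset.prod_congr rfl fun i _ => (Finset.prod_mul_distrib).symm

/-- **exact decomposition of the positive gas** -/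
theorem WO_eq {R : ℝ} {DX DX1 DY DY1 : ℝ → ℂ} (hX : Sm R DX DX1) (hY : Sm R DY DY1)
    (hXY : Sm2 R DX DY) (hJX : ∀ t, |t| ≤ R → 1 + DX1 t ≠ 0) (hJY : ∀ t, |t| ≤ R → 1 + DY1 t ≠ 0)
    (a a' : ℝ → ℝ) (t : Fin p → ℝ) (t' : Fin n → ℝ) (ht : ∀ i, |t i| ≤ R) (ht' : ∀ i, |t' i| ≤ R) :
    WO DX DX1 DY DY1 a a' t t' = pom t * pom t' * NUE.br2 NUMF.g t t' *
      Real.exp (KE DX DX1 DY DY1 t t') * ((∏ i, a (t i)) * ∏ j, a' (t' j)) := by
  have e1 := prod_own hX hJX t ht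
  have e2 := prod_own hY hJY t' ht'
  have e3 := prod_cross hXY t t' ht ht'
  rw [prod_w] at e1 e2
  have hg : 0 < ∏ i, ∏ j ∈ Finset.Ioi i, NUMF.g (t i - t j) :=
    Finset.prod_pos fun i _ => Finset.prod_pos fun j _ => NUMF.g_pos _
  have hg' : 0 < ∏ i, ∏ j ∈ Finset.Ioi i, NUMF.g (t' i - t' j) :=
    Finset.prod_pos fun i _ => Finset.prod_pos fun j _ => NUMF.g_pos _
  have hW : WO DX DX1 DY DY1 a a' t t' = (ow DX t * ∏ i, ‖1 + DX1 (t i)‖) *
      (ow DY t' * ∏ i, ‖1 + DY1 (t' i)‖) * cr DX DY t t' * ((∏ i, a (t i)) * ∏ j, a' (t' j)) := by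
    unfold WO ob
    rw [Finset.prod_mul_distrib, Finset.prod_mul_distrib]
    ring
  rw [hW]
  unfold ow cr
  rw [e1, e2, e3]
  unfold KE NUE.br2
  rw [Real.exp_add, Real.exp_add]
  field_simp

end

end NU42
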