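import Pool.Agent.NU42.Split
import Pool.Agent.NU42.NuF
import Pool.Agent.NUAct.Two
import Pool.Agent.NUAct.Expo
import Pool.Agent.NUKer.Dec

/-!
# The action: kernels of the transported gas, centred form of the exponent, final pointwise splitting

* `re_Us`, `re_Ux`: real parts of the complex pair potentials are `-log ‖wcx‖`, `-log ‖gcx‖`;
* `kap_X`, `kap_Y`, `kap_XY`: `K0 - Re K = kw`, `kg`;
* `act`: `KE + ∑ G = S + ν(lin) + 1/2 nuF2 kw + 1/2 nuF2 kw + nuF2 kg`;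
* `WO_act`: the positive gas is at most `exp (const)` times two one component gases times
  `exp (quadratic form)`.
-/

set_option autoImplicit false

open MeasureTheory Set Filter Topology

namespace NU42

open NUKer NUE

noncomputable section

variable {p n : ℕ}

/-! ### complex kernels -/

lemma cos_4l : Real.cos (2 * (2 * NUMF.l)) = 0 := by
  have h8 := NUAct.l8
  rw [show 2 * (2 * NUMF.l) = Real.pi / 2 by linarith, Real.cos_pi_div_two]

lemma cos_2l : Real.cos (2 * NUMF.l) = NUMF.r := by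
  have h8 := NUAct.l8
  rw [show 2 * NUMF.l = Real.pi / 4 by linarith, Real.cos_pi_div_four]
  rfl

lemma cos_6l : Real.cos (2 * (3 * NUMF.l)) = -NUMF.r := by
  have h8 := NUAct.l8
  rw [show 2 * (3 * NUMF.l) = Real.pi - 2 * NUMF.l by linarith, Real.cos_pi_sub, cos_2l]

lemma exp_Us {z : ℂ} (h0 : 0 < z.re) (h : |z.im| < NUMF.l) : Complex.exp (-NUAct.Us z) = wcx z := by
  have hl := NUMF.l_pos
  have h8 := NUAct.l8
  have e3 := NUAct.exp_Ly (NUAct.a3 h)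
  have e2 := NUAct.exp_Ly (NUAct.a2 h)
  rw [cos_6l] at e3
  rw [cos_4l] at e2
  have hs : Complex.sinh z ≠ 0 := Complex.slitPlane_ne_zero (NUAct.sinh_slit h0 (by linarith))
  have e1 : Complex.exp (2 * Complex.log (Complex.sinh z)) = Complex.sinh z ^ 2 := by
    rw [two_mul, Complex.exp_add, Complex.exp_log hs, sq]
  unfold NUAct.Us wcx
  rw [show -(NUAct.Ly (3 * NUMF.l) z - NUAct.Ly (2 * NUMF.l) z - 2 * Complex.log (Complex.sinh z)) =
    2 * Complex.log (Complex.sinh z) + NUAct.Ly (2 * NUMF.l) z - NUAct.Ly (3 * NUMF.l) z by ring,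
    Complex.exp_sub, Complex.exp_add, e1, e2, e3]
  push_cast
  ring_nf

lemma exp_Ux {z : ℂ} (h : |z.im| < NUMF.l) : Complex.exp (-NUAct.Ux z) = gcx z := by
  have hl := NUMF.l_pos
  have h8 := NUAct.l8
  have e1 := NUAct.exp_Ly (NUAct.a1 h)
  have e0 := NUAct.exp_Ly (NUAct.a0 h)
  rw [cos_2l] at e1
  rw [mul_zero, Real.cos_zero] at e0
  have e2 : Complex.exp (2 * NUAct.Ly NUMF.l z) = (Complex.cosh (2 * z) + NUMF.r) ^ 2 := by
    rw [two_mul, Complex.exp_add, e1, sq]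
  have e4 : Complex.exp ((Real.log 2 : ℝ) : ℂ) = 2 := by
    rw [← Complex.ofReal_exp, Real.exp_log two_pos]
    norm_num
  have e5 : Complex.cosh (2 * z) + 1 = 2 * Complex.cosh z ^ 2 := by
    rw [Complex.cosh_two_mul]
    have := Complex.cosh_sq_sub_sinh_sq z
    linear_combination -this
  unfold NUAct.Ux gcx
  rw [show -(2 * NUAct.Ly NUMF.l z - NUAct.Ly 0 z - Real.log 2) =
    NUAct.Ly 0 z + Real.log 2 - 2 * NUAct.Ly NUMF.l z by ring,
    Complex.exp_sub, Complex.exp_add, e2, e0, e4]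
  rw [show Complex.cosh (2 * z) + ((1 : ℝ) : ℂ) = 2 * Complex.cosh z ^ 2 by rw [← e5]; push_cast; ring]
  ring

lemma re_Us {z : ℂ} (h0 : 0 < z.re) (h : |z.im| < NUMF.l) : (NUAct.Us z).re = -Real.log ‖wcx z‖ := by
  rw [← exp_Us h0 h, Complex.norm_exp, Real.log_exp, Complex.neg_re, neg_neg]

lemma re_Ux {z : ℂ} (h : |z.im| < NUMF.l) : (NUAct.Ux z).re = -Real.log ‖gcx z‖ := by
  rw [← exp_Ux h, Complex.norm_exp, Real.log_exp, Complex.neg_re, neg_neg]

lemma w_pos {x : ℝ} (hx : x ≠ 0) : 0 < NUMF.w x := by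
  unfold NUMF.w
  have h1 := NUMF.cm_r x
  have h3 := Real.cosh_pos (2 * x)
  have h4 : Real.sinh x ≠ 0 := by rwa [Ne, Real.sinh_eq_zero]
  positivity

lemma g_even (x : ℝ) : NUMF.g (-x) = NUMF.g x := by
  unfold NUMF.g
  rw [Real.cosh_neg, mul_neg, Real.cosh_neg]

lemma w_even (x : ℝ) : NUMF.w (-x) = NUMF.w x := by
  unfold NUMF.w
  rw [Real.sinh_neg, mul_neg, Real.cosh_neg]
  ring

variable {DX DX1 DY DY1 : ℝ → ℂ} {b c B : ℝ}

/-- the transported own kernel -/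
lemma re_Up {D D1 : ℝ → ℂ} (hs : ∀ R, Sm R D D1) (hb : b ≤ NUMF.l / 4)
    (P' : NUAct.Path b c B (fun t => t + D t) fun t => 1 + D1 t) {t t' : ℝ} (hne : t ≠ t') :
    -Real.log (NUMF.w (t - t')) - (NUAct.Up NUAct.Us (fun t => t + D t) t t').re = kw D D1 t t' := by
  have hl := NUMF.l_pos
  have key : ∀ u u' : ℝ, u' < u →
      -Real.log (NUMF.w (u - u')) - (NUAct.Us ((u + D u) - (u' + D u'))).re = kw D D1 u u' := by
    intro u u' huu
    have h1 := P'.mono u' u huu.le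
    have h2 : 0 < ((u + D u) - (u' + D u') : ℂ).re := lt_of_lt_of_le (mul_pos P'.c_pos (by linarith)) h1
    have h3 : |((u + D u) - (u' + D u') : ℂ).im| < NUMF.l := by
      rw [Complex.sub_im]
      refine lt_of_le_of_lt (abs_sub _ _) ?_
      have a1 : |((u : ℂ) + D u).im| ≤ b := P'.im_le u
      have a2 : |((u' : ℂ) + D u').im| ≤ b := P'.im_le u'
      linarith
    have h4 := norm_wcx (hs (max |u| |u'|)) (le_max_left _ _) (le_max_right |u| |u'|)
    have h5 : 0 < NUMF.w (u - u') := w_pos (sub_ne_zero.2 huu.ne')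
    rw [re_Us h2 h3, h4, Real.log_mul h5.ne' (Real.exp_pos _).ne', Real.log_exp]
    ring
  rcases lt_or_gt_of_ne hne with h | h
  · rw [NUAct.Up_of_le h.le]
    have h1 := key t' t h
    rw [kw_symm (hs (max |t| |t'|)) (le_max_left _ _) (le_max_right |t| |t'|), ← h1,
      ← neg_sub t' t, w_even]
  · rw [NUAct.Up_of_lt h]
    exact key t t' h

/-- the transported cross kernel -/
lemma re_Ux' {D D' : ℝ → ℂ} (hs : ∀ R, Sm2 R D D') (hb : b ≤ NUMF.l / 4)
    (h1 : ∀ t : ℝ, |((t : ℂ) + D t).im| ≤ b) (h2 : ∀ t : ℝ, |((t : ℂ) + D' t).im| ≤ b) (t t' : ℝ) :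
    -Real.log (NUMF.g (t - t')) - (NUAct.Ux ((t + D t) - (t' + D' t'))).re = kg D D' t t' := by
  have hl := NUMF.l_pos
  have h3 : |((t + D t) - (t' + D' t') : ℂ).im| < NUMF.l := by
    rw [Complex.sub_im]
    refine lt_of_le_of_lt (abs_sub _ _) ?_
    have := h1 t
    have := h2 t'
    linarith
  have h4 := norm_gcx (hs (max |t| |t'|)) (le_max_left _ _) (le_max_right |t| |t'|)
  have h5 := NUMF.g_pos (t - t')
  rw [re_Ux h3, h4, Real.log_mul h5.ne' (Real.exp_pos _).ne', Real.log_exp]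
  ring

/-! ### the transported two species gas -/

/-- the contours -/
def zz (DX DY : ℝ → ℂ) (a : Bool) (t : ℝ) : ℂ := if a then t + DX t else t + DY t

/-- their derivatives -/
def zz1 (DX1 DY1 : ℝ → ℂ) (a : Bool) (t : ℝ) : ℂ := if a then 1 + DX1 t else 1 + DY1 t

/-- the kernels with their diagonal values -/
def kd (DX DX1 DY DY1 : ℝ → ℂ) (a b : Bool) : ℝ → ℝ → ℝ :=
  if a then (if b then kw DX DX1 else kg DX DY) else (if b then kg DY DX else kw DY DY1)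

/-- the gas -/
abbrev XX (s : ℝ) (DX DX1 DY DY1 : ℝ → ℂ) (Fe : Bool → ℂ → ℂ) : NUAct.Gas Bool :=
  NUAct.two s (zz DX DY) (zz1 DX1 DY1) Fe

lemma kap_eq (hs : Small DX DX1 DY DY1) (hb : b ≤ NUMF.l / 4)
    (P' : ∀ a, NUAct.Path b c B (zz DX DY a) (zz1 DX1 DY1 a)) (s : ℝ) (Fe : Bool → ℂ → ℂ) (a d : Bool)
    {t t' : ℝ} (hne : t ≠ t') : (XX s DX DX1 DY DY1 Fe).κ a d t t' = kd DX DX1 DY DY1 a d t t' := by
  have hX : ∀ t : ℝ, |((t : ℂ) + DX t).im| ≤ b := fun t => by simpa [zz] using (P' true).im_le t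
  have hY : ∀ t : ℝ, |((t : ℂ) + DY t).im| ≤ b := fun t => by simpa [zz] using (P' false).im_le t
  have PX : NUAct.Path b c B (fun t => t + DX t) fun t => 1 + DX1 t := P' true
  have PY : NUAct.Path b c B (fun t => t + DY t) fun t => 1 + DY1 t := P' false
  unfold NUAct.Gas.κ XX
  rw [NUAct.two_K, NUAct.two_K0]
  cases a <;> cases d
  · exact re_Up hs.sY hb PY hne
  · have h1 := re_Ux' hs.sXY hb hX hY t' t
    show -Real.log (NUMF.g (t - t')) - (NUAct.Ux ((t + DY t) - (t' + DX t'))).re = kg DY DX t t'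
    rw [kg_symm, ← h1, ← neg_sub t' t, g_even, ← neg_sub ((t' : ℂ) + DX t'), NUAct.Ux_neg]
  · exact re_Ux' hs.sXY hb hX hY t t'
  · exact re_Up hs.sX hb PX hne

/-! ### the centred form of the exponent -/

lemma dens_P {s : ℝ} (hs : 0 ≤ s) : Dens fun t => s * NUMF.P t where
  int := by
    obtain ⟨C, hC0, hC⟩ := NUAct.rho_bd s
    refine ((NUAct.int_exp_abs' (κ := 8 / 3) (by norm_num)).const_mul C).mono'
      (continuous_const.mul NUMF.P_cont).aestronglyMeasurable (ae_of_all _ fun t => ?_)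
    have := hC t
    rwa [Complex.norm_real] at this
  nonneg t := mul_nonneg hs (NUMF.P_pos t).le
  cont := continuous_const.mul NUMF.P_cont

/-- expansion, transposed kernel given -/
lemma nuF2_exp' {ι ι' : Type*} [Fintype ι] [Fintype ι'] {ρ : ℝ → ℝ} {C : ℝ} {κ κ' : ℝ → ℝ → ℝ}
    (hρ : Dens ρ) (x : ι → ℝ) (x' : ι' → ℝ) (h : Bk C κ) (hsw : ∀ t t', κ' t t' = κ t' t) :
    nuF2 ρ ρ x x' κ = ∑ i, ∑ j, κ (x i) (x' j) - ∑ i, (∫ u, κ (x i) u * ρ u) -
      ∑ j, (∫ u, κ' (x' j) u * ρ u) + ∫ t, ρ t * ∫ u, κ t u * ρ u := by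
  rw [nuF2_expand hρ hρ x x' h]
  simp only [hsw]
  congr 1
  exact integral_congr_ae (ae_of_all _ fun t => mul_comm _ _)

variable {C s : ℝ} {Fe : Bool → ℂ → ℂ}

lemma kd_swap (hs : Small DX DX1 DY DY1) (a d : Bool) (t t' : ℝ) :
    kd DX DX1 DY DY1 a d t t' = kd DX DX1 DY DY1 d a t' t := by
  cases a <;> cases d
  · exact kw_symm (hs.sY (max |t| |t'|)) (le_max_left _ _) (le_max_right |t| |t'|)
  · exact kg_symm _ _ _ _
  · exact kg_symm _ _ _ _
  · exact kw_symm (hs.sX (max |t| |t'|)) (le_max_left _ _) (le_max_right |t| |t'|)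

lemma kr_eq (hs : Small DX DX1 DY DY1) (hb : b ≤ NUMF.l / 4)
    (P' : ∀ a, NUAct.Path b c B (zz DX DY a) (zz1 DX1 DY1 a)) (s : ℝ) (Fe : Bool → ℂ → ℂ) (a d : Bool)
    (t : ℝ) : (XX s DX DX1 DY DY1 Fe).κρ a d t = ∫ u, kd DX DX1 DY DY1 a d t u * (s * NUMF.P u) := by
  unfold NUAct.Gas.κρ
  refine integral_congr_ae ?_
  have h0 : ({t}ᶜ : Set ℝ) ∈ ae volume := compl_mem_ae_iff.2 (measure_singleton t)
  filter_upwards [h0] with u hu
  rw [kap_eq hs hb P' s Fe a d (Ne.symm hu)]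
  rfl

/-- the quadratic form of the two species -/
def QF (ρ : ℝ → ℝ) (κ : Bool → Bool → ℝ → ℝ → ℝ) (t : Fin p → ℝ) (t' : Fin n → ℝ) : ℝ :=
  1 / 2 * nuF2 ρ ρ t t (κ true true) + nuF2 ρ ρ t t' (κ true false) +
    1 / 2 * nuF2 ρ ρ t' t' (κ false false)

/-- **the exponent in centred form** -/
theorem act (hs : Small DX DX1 DY DY1) (hb : b ≤ NUMF.l / 4)
    (P' : ∀ a, NUAct.Path b c B (zz DX DY a) (zz1 DX1 DY1 a)) (hs0 : 0 ≤ s)
    (hF : ∀ a, NUAct.Ext b (Fe a)) (hk : ∀ a d, Bk C (kd DX DX1 DY DY1 a d))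
    (t : Fin p → ℝ) (t' : Fin n → ℝ) :
    KE DX DX1 DY DY1 t t' + (∑ i, (XX s DX DX1 DY DY1 Fe).G true (t i) +
      ∑ j, (XX s DX DX1 DY DY1 Fe).G false (t' j)) =
    (XX s DX DX1 DY DY1 Fe).S - (∫ u, s * NUMF.P u * (XX s DX DX1 DY DY1 Fe).lin true u) -
      (∫ u, s * NUMF.P u * (XX s DX DX1 DY DY1 Fe).lin false u) +
      (∑ i, (XX s DX DX1 DY DY1 Fe).lin true (t i) + ∑ j, (XX s DX DX1 DY DY1 Fe).lin false (t' j)) +
      QF (fun u => s * NUMF.P u) (kd DX DX1 DY DY1) t t' := by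
  have hok : (XX s DX DX1 DY DY1 Fe).Ok := NUAct.two_ok s hb P' hF
  have hρ := dens_P hs0
  have h1 := hok.expo (I := Fin p ⊕ Fin n) (Sum.elim (fun _ => true) fun _ => false) (Sum.elim t t')
    (kd DX DX1 DY DY1)
  have ib : ∀ a d, Integrable fun u : ℝ => s * NUMF.P u *
      ∫ v, kd DX DX1 DY DY1 a d u v * (s * NUMF.P v) := fun a d => by
    refine (int_bd hρ (cv_cont hρ (hk a d)) fun t => abs_int_le hρ ((hk a d).le t)).congr
      (ae_of_all _ fun t => mul_comm _ _)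
  have e1 := nuF2_exp' hρ t t (hk true true) (κ' := kd DX DX1 DY DY1 true true)
    fun u u' => kd_swap hs _ _ _ _
  have e2 := nuF2_exp' hρ t t' (hk true false) (κ' := kd DX DX1 DY DY1 false true)
    fun u u' => kd_swap hs _ _ _ _
  have e3 := nuF2_exp' hρ t' t (hk false true) (κ' := kd DX DX1 DY DY1 true false)
    fun u u' => kd_swap hs _ _ _ _
  have e4 := nuF2_exp' hρ t' t' (hk false false) (κ' := kd DX DX1 DY DY1 false false)
    fun u u' => kd_swap hs _ _ _ _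
  have e5 : nuF2 (fun u => s * NUMF.P u) (fun u => s * NUMF.P u) t' t (kd DX DX1 DY DY1 false true) =
      nuF2 (fun u => s * NUMF.P u) (fun u => s * NUMF.P u) t t' (kd DX DX1 DY DY1 true false) := by
    have := nuF2_swap hρ hρ t t' (hk true false)
    rw [← this]
    congr 1
    funext u u'
    exact kd_swap hs _ _ _ _
  rw [e5] at e3
  have e6 : ∀ (u : ℝ) (a : Bool), s * NUMF.P u * ∑ d, ∫ v, kd DX DX1 DY DY1 a d u v * (s * NUMF.P v) =
      s * NUMF.P u * (∫ v, kd DX DX1 DY DY1 a true u v * (s * NUMF.P v)) +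
      s * NUMF.P u * ∫ v, kd DX DX1 DY DY1 a false u v * (s * NUMF.P v) := by
    intro u a
    rw [Fintype.sum_bool, mul_add]
  have e7 : ∀ a, ∫ u, (XX s DX DX1 DY DY1 Fe).ρ a u * ∑ d, (XX s DX DX1 DY DY1 Fe).κρ a d u =
      (∫ u, s * NUMF.P u * ∫ v, kd DX DX1 DY DY1 a true u v * (s * NUMF.P v)) +
      ∫ u, s * NUMF.P u * ∫ v, kd DX DX1 DY DY1 a false u v * (s * NUMF.P v) := by
    intro a
    rw [← integral_add (ib a true) (ib a false)]
    refine integral_congr_ae (ae_of_all _ fun u => ?_)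
    simp only [← e6]
    rw [NUAct.two_rho]
    congr 1
    exact Finset.sum_congr rfl fun d _ => kr_eq hs hb P' s Fe a d u
  have e8 : ∑ i, ∑ j, kg DY DX (t' i) (t j) = ∑ i, ∑ j, kg DX DY (t i) (t' j) := by
    rw [Finset.sum_comm]
    exact Finset.sum_congr rfl fun i _ => Finset.sum_congr rfl fun j _ => kg_symm _ _ _ _
  unfold NUAct.Gas.nu NUAct.Gas.nu2 at h1
  simp only [Fintype.sum_sum_type, Sum.elim_inl, Sum.elim_inr, Fintype.sum_bool,
    kr_eq hs hb P' s Fe, Finset.sum_add_distrib] at h1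
  simp only [Fintype.sum_bool, kr_eq hs hb P' s Fe] at e7
  rw [e7 true, e7 false] at h1
  unfold QF
  have e9 : ∑ i, ∑ j, kd DX DX1 DY DY1 false true (t' i) (t j) =
      ∑ i, ∑ j, kd DX DX1 DY DY1 true false (t i) (t' j) := e8
  have e10 : KE DX DX1 DY DY1 t t' = 1 / 2 * ∑ i, ∑ j, kd DX DX1 DY DY1 true true (t i) (t j) +
      1 / 2 * ∑ i, ∑ j, kd DX DX1 DY DY1 false false (t' i) (t' j) +
      ∑ i, ∑ j, kd DX DX1 DY DY1 true false (t i) (t' j) := rfl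
  have e11 : ∀ a, ∫ u, (XX s DX DX1 DY DY1 Fe).ρ a u * (XX s DX DX1 DY DY1 Fe).lin a u =
      ∫ u, s * NUMF.P u * (XX s DX DX1 DY DY1 Fe).lin a u := fun a => rfl
  rw [e11 true, e11 false] at h1
  rw [e9] at h1 e3
  rw [e10]
  linarith [h1, e1, e2, e3, e4]

/-! ### the final pointwise splitting -/

/-- a one component gas with one body potential `φ` -/
def W1 (φ : ℝ → ℝ) (t : Fin p → ℝ) : ℝ := pom t * ∏ i, Real.exp (φ (t i))

lemma W1_nonneg (φ : ℝ → ℝ) (t : Fin p → ℝ) : 0 ≤ W1 φ t :=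
  mul_nonneg (pom_nonneg t) (Finset.prod_nonneg fun _ _ => (Real.exp_pos _).le)

lemma W1_meas {φ : ℝ → ℝ} (h : Measurable φ) : Measurable (W1 φ : (Fin p → ℝ) → ℝ) := by
  unfold W1
  refine pom_meas.mul ?_
  exact Finset.measurable_prod _ fun i _ => by fun_prop

/-- constant of the splitting -/
def CS (s : ℝ) (DX DX1 DY DY1 : ℝ → ℂ) (Fe : Bool → ℂ → ℂ) : ℝ :=
  (XX s DX DX1 DY DY1 Fe).S - (∫ u, s * NUMF.P u * (XX s DX DX1 DY DY1 Fe).lin true u) -
      ∫ u, s * NUMF.P u * (XX s DX DX1 DY DY1 Fe).lin false u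

/-- the one body potential of species `d` -/
def phi (s : ℝ) (DX DX1 DY DY1 : ℝ → ℂ) (Fe : Bool → ℂ → ℂ) (β : ℝ → ℝ) (τ : ℝ → ℝ) (d : Bool)
    (t : ℝ) : ℝ :=
  s * NUMF.v t + (XX s DX DX1 DY DY1 Fe).lin d t + β t +
    (if d then cv lgm τ t else -cv lgm τ t)

/-- **final pointwise splitting, whole line quadratic form** -/
theorem WO_act {ch : ℝ → ℝ} (hc : Continuous ch) (hce : ∀ k, ch (-k) = ch k) {K h : ℝ} (hh : 0 < h)
    (hK : K * h < Real.pi) (hcs : ∀ k, K < |k| → ch k = 0) (hL : ∀ k, 0 < k → ch k ^ 2 ≤ NUMF.Lh k)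
    (La : Finset ℤ) (a0 : ℝ) {τ : ℝ → ℝ} (hτ : Integrable τ) (hτ1 : Integrable fun x => τ x * x)
    (h0 : ∫ x, τ x = (p : ℝ) - n)
    (hs : Small DX DX1 DY DY1) (hb : b ≤ NUMF.l / 4)
    (P' : ∀ a, NUAct.Path b c B (zz DX DY a) (zz1 DX1 DY1 a)) (hs0 : 0 ≤ s)
    (hF : ∀ a, NUAct.Ext b (Fe a)) (hk : ∀ a d, Bk C (kd DX DX1 DY DY1 a d))
    {a a' βX βY : ℝ → ℝ} (ha : ∀ t, 0 ≤ a t) (ha' : ∀ t, 0 ≤ a' t)
    (hla : ∀ t, a t ≤ Real.exp (s * NUMF.v t + (XX s DX DX1 DY DY1 Fe).G true t + βX t))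
    (hla' : ∀ t, a' t ≤ Real.exp (s * NUMF.v t + (XX s DX DX1 DY DY1 Fe).G false t + βY t))
    (t : Fin p → ℝ) (t' : Fin n → ℝ) :
    WO DX DX1 DY DY1 a a' t t' * Real.exp (1 / 2 * ∑ l ∈ La, Fst ch h a0 τ l t t' ^ 2) ≤
      Real.exp (Ctau p n τ + CS s DX DX1 DY DY1 Fe) *
        W1 (phi s DX DX1 DY DY1 Fe βX τ true) t * W1 (phi s DX DX1 DY DY1 Fe βY τ false) t' *
        Real.exp (QF (fun u => s * NUMF.P u) (kd DX DX1 DY DY1) t t') := by
  refine (WO_tau hc hce hh hK hcs hL La a0 hτ hτ1 h0 hs ha ha' t t').trans ?_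
  have e1 := act hs hb P' hs0 hF hk t t'
  have f1 : ∏ i, (a (t i) * Real.exp (cv lgm τ (t i))) ≤
      Real.exp (∑ i, (s * NUMF.v (t i) + (XX s DX DX1 DY DY1 Fe).G true (t i) + βX (t i) +
        cv lgm τ (t i))) := by
    rw [Real.exp_sum]
    refine Finset.prod_le_prod (fun i _ => mul_nonneg (ha _) (Real.exp_pos _).le) fun i _ => ?_
    rw [Real.exp_add _ (cv lgm τ (t i))]
    exact mul_le_mul_of_nonneg_right (hla _) (Real.exp_pos _).le
  have f2 : ∏ i, (a' (t' i) * Real.exp (-cv lgm τ (t' i))) ≤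
      Real.exp (∑ i, (s * NUMF.v (t' i) + (XX s DX DX1 DY DY1 Fe).G false (t' i) + βY (t' i) +
        -cv lgm τ (t' i))) := by
    rw [Real.exp_sum]
    refine Finset.prod_le_prod (fun i _ => mul_nonneg (ha' _) (Real.exp_pos _).le) fun i _ => ?_
    rw [Real.exp_add _ (-cv lgm τ (t' i))]
    exact mul_le_mul_of_nonneg_right (hla' _) (Real.exp_pos _).le
  have p1 := pom_nonneg t
  have p2 := pom_nonneg t'
  have q1 : 0 ≤ ∏ i, (a (t i) * Real.exp (cv lgm τ (t i))) :=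
    Finset.prod_nonneg fun i _ => mul_nonneg (ha _) (Real.exp_pos _).le
  have q2 : 0 ≤ ∏ i, (a' (t' i) * Real.exp (-cv lgm τ (t' i))) :=
    Finset.prod_nonneg fun i _ => mul_nonneg (ha' _) (Real.exp_pos _).le
  calc _ ≤ Real.exp (Ctau p n τ) *
        (pom t * Real.exp (∑ i, (s * NUMF.v (t i) + (XX s DX DX1 DY DY1 Fe).G true (t i) + βX (t i) +
          cv lgm τ (t i)))) *
        (pom t' * Real.exp (∑ i, (s * NUMF.v (t' i) + (XX s DX DX1 DY DY1 Fe).G false (t' i) +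
          βY (t' i) + -cv lgm τ (t' i)))) * Real.exp (KE DX DX1 DY DY1 t t') := by gcongr
    _ = pom t * pom t' * Real.exp (Ctau p n τ +
        ∑ i, (s * NUMF.v (t i) + (XX s DX DX1 DY DY1 Fe).G true (t i) + βX (t i) + cv lgm τ (t i)) +
        ∑ i, (s * NUMF.v (t' i) + (XX s DX DX1 DY DY1 Fe).G false (t' i) + βY (t' i) +
          -cv lgm τ (t' i)) + KE DX DX1 DY DY1 t t') := by
        rw [Real.exp_add, Real.exp_add, Real.exp_add]
        ring
    _ = pom t * pom t' * Real.exp (Ctau p n τ + CS s DX DX1 DY DY1 Fe +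
        ∑ i, phi s DX DX1 DY DY1 Fe βX τ true (t i) +
        ∑ i, phi s DX DX1 DY DY1 Fe βY τ false (t' i) +
        QF (fun u => s * NUMF.P u) (kd DX DX1 DY DY1) t t') := by
        congr 2
        unfold phi CS
        simp only [Finset.sum_add_distrib, if_true, Bool.false_eq_true, if_false]
        linarith
    _ = _ := by
        unfold W1
        rw [← Real.exp_sum, ← Real.exp_sum]
        rw [Real.exp_add _ (QF _ _ _ _), Real.exp_add _ (∑ i, phi s DX DX1 DY DY1 Fe βY τ false (t' i)),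
          Real.exp_add _ (∑ i, phi s DX DX1 DY DY1 Fe βX τ true (t i))]
        ring

/-- the cut kernels -/
def kb (b : ℝ → ℝ) (κ : Bool → Bool → ℝ → ℝ → ℝ) (a d : Bool) (t t' : ℝ) : ℝ := b t * b t' * κ a d t t'

/-- the quadratic form with cut kernels -/
lemma QF_cut {ρ : ℝ → ℝ} (hρ : Dens ρ) {κ : Bool → Bool → ℝ → ℝ → ℝ} (hk : ∀ a d, Bk C (κ a d))
    {bb : ℝ → ℝ} (hb : Continuous bb) (hb1 : ∀ t, |bb t| ≤ 1) {ε : ℝ}
    (he : ∀ a d t t', |κ a d t t' - bb t * bb t' * κ a d t t'| ≤ ε)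
    (t : Fin p → ℝ) (t' : Fin n → ℝ) :
    QF ρ κ t t' ≤ QF ρ (kb bb κ) t t' + ε / 2 * ((p : ℝ) + n + 2 * ∫ x, ρ x) ^ 2 := by
  have h1 := nuF2_diff hρ hρ t t (hk true true) ((hk true true).cut (R := 0) hb hb1) (he true true)
  have h2 := nuF2_diff hρ hρ t t' (hk true false) ((hk true false).cut (R := 0) hb hb1) (he true false)
  have h3 := nuF2_diff hρ hρ t' t' (hk false false) ((hk false false).cut (R := 0) hb hb1)
    (he false false)
  have g1 := (abs_le.1 h1).2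
  have g2 := (abs_le.1 h2).2
  have g3 := (abs_le.1 h3).2
  unfold tm at g1 g2 g3
  simp only [Fintype.card_fin] at g1 g2 g3
  unfold QF kb
  have e : ε / 2 * ((p : ℝ) + n + 2 * ∫ x, ρ x) ^ 2 =
      1 / 2 * (ε * ((p : ℝ) + ∫ x, ρ x) * ((p : ℝ) + ∫ x, ρ x)) +
      ε * ((n : ℝ) + ∫ x, ρ x) * ((p : ℝ) + ∫ x, ρ x) +
      1 / 2 * (ε * ((n : ℝ) + ∫ x, ρ x) * ((n : ℝ) + ∫ x, ρ x)) := by ring
  rw [e]
  linarith

end

end NU42
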