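import Pool.Agent.NU42.Sum

/-!
# Summation of the shells: separate first window, tail

* `gas_shells0`, `WO_shells0`: `gas_shells`, `WO_shells` with a separate bound `A0` of the first window;
* `WO_tail`: the integral over the configurations with a quantum outside `[-R, R]`;
* `WO_full`: the whole integral, window bounds for every real half length.
-/

set_option autoImplicit false

open MeasureTheory Set Filter Topology
open scoped ENNReal

namespace NU42

noncomputable section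

variable {p n : ℕ}

/-- **summation of the shells**, separate bound of the first window -/
theorem gas_shells0 {W : (Fin p → ℝ) × (Fin n → ℝ) → ℝ≥0∞} (hW : Measurable W) {c B : ℝ → ℝ}
    (hB : Measurable B) {D q g A A0 T0 : ℝ} (hD : 0 ≤ D) (hA : 0 ≤ A) (hq : 0 < q) (hg : g < q)
    (hB0 : ∀ t, 0 ≤ B t) (h1 : ∀ t, c t ≤ Real.exp (B t)) (h2 : ∀ t, c t ≤ D * Real.exp (-q * |t|))
    (hw0 : ∫⁻ x in Bw p n T0, W x * ((∏ i, ENNReal.ofReal (Real.exp (B (x.1 i)))) *
      ∏ i, ENNReal.ofReal (Real.exp (B (x.2 i)))) ≤ ENNReal.ofReal A0)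
    (hw : ∀ j : ℕ, ∫⁻ x in Bw p n (T0 + (j + 1)), W x *
      ((∏ i, ENNReal.ofReal (Real.exp (B (x.1 i)))) *
      ∏ i, ENNReal.ofReal (Real.exp (B (x.2 i)))) ≤ ENNReal.ofReal (A * Real.exp (g * (j + 1)))) :
    ∫⁻ x, W x * ((∏ i, ENNReal.ofReal (c (x.1 i))) * ∏ i, ENNReal.ofReal (c (x.2 i))) ≤
      ENNReal.ofReal A0 +
      ENNReal.ofReal (A * (D * Real.exp (-q * T0) * Real.exp g / (1 - Real.exp (-(q - g))))) := by
  have hK : Monotone (fun j : ℕ => Icc (-(T0 + (j : ℝ))) (T0 + j)) := by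
    intro i j hij
    have : (i : ℝ) ≤ j := by exact_mod_cast hij
    exact Icc_subset_Icc (by linarith) (by linarith)
  have hU : ⋃ j : ℕ, Icc (-(T0 + (j : ℝ))) (T0 + j) = univ := by
    refine eq_univ_of_forall fun t => mem_iUnion.2 ?_
    obtain ⟨j, hj⟩ := exists_nat_ge (|t| - T0)
    refine ⟨j, ?_⟩
    rw [mem_Icc, ← abs_le]
    linarith
  have key := shell (μ := (volume : Measure ((Fin p → ℝ) × (Fin n → ℝ)))) (cc2 (p := p) (n := n)) cc2_meas
    hW (c := fun t => ENNReal.ofReal (c t)) (b := fun t => ENNReal.ofReal (Real.exp (B t)))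
    (by fun_prop) hK (fun j => measurableSet_Icc) hU (fun t => ENNReal.ofReal_le_ofReal (h1 t))
    (ε := fun j => ENNReal.ofReal (D * Real.exp (-q * (T0 + ((j : ℝ) - 1))))) (by
      intro j t ht
      have ht' : T0 + j < |t| := by
        by_contra hcon
        push Not at hcon
        exact ht (abs_le.1 hcon)
      rw [← ENNReal.ofReal_mul (by positivity)]
      refine ENNReal.ofReal_le_ofReal ?_
      have h3 : D * Real.exp (-q * |t|) ≤ D * Real.exp (-q * (T0 + (((j + 1 : ℕ) : ℝ) - 1))) := by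
        refine mul_le_mul_of_nonneg_left (Real.exp_le_exp.2 ?_) hD
        push_cast
        nlinarith
      have h4 : 1 ≤ Real.exp (B t) := Real.one_le_exp (hB0 t)
      calc c t ≤ D * Real.exp (-q * |t|) := h2 t
        _ ≤ D * Real.exp (-q * (T0 + (((j + 1 : ℕ) : ℝ) - 1))) := h3
        _ ≤ _ := le_mul_of_one_le_right (by positivity) h4)
  simp only [Fintype.prod_sum_type, win_cc2] at key
  have e1 : ∀ x : (Fin p → ℝ) × (Fin n → ℝ), (∏ i : Fin p, ENNReal.ofReal (c (cc2 (n := n) (Sum.inl i) x))) *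
      ∏ i : Fin n, ENNReal.ofReal (c (cc2 (p := p) (Sum.inr i) x)) =
      (∏ i, ENNReal.ofReal (c (x.1 i))) * ∏ i, ENNReal.ofReal (c (x.2 i)) := fun x => rfl
  have e2 : ∀ x : (Fin p → ℝ) × (Fin n → ℝ),
      (∏ i : Fin p, ENNReal.ofReal (Real.exp (B (cc2 (n := n) (Sum.inl i) x)))) *
      ∏ i : Fin n, ENNReal.ofReal (Real.exp (B (cc2 (p := p) (Sum.inr i) x))) =
      (∏ i, ENNReal.ofReal (Real.exp (B (x.1 i)))) * ∏ i, ENNReal.ofReal (Real.exp (B (x.2 i))) :=
    fun x => rfl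
  simp only [e1, e2] at key
  refine key.trans ?_
  have hj : ∀ j : ℕ, ENNReal.ofReal (D * Real.exp (-q * (T0 + (((j + 1 : ℕ) : ℝ) - 1)))) *
      ∫⁻ x in Bw p n (T0 + ((j + 1 : ℕ) : ℝ)), W x * ((∏ i, ENNReal.ofReal (Real.exp (B (x.1 i)))) *
      ∏ i, ENNReal.ofReal (Real.exp (B (x.2 i)))) ≤
      ENNReal.ofReal (D * Real.exp (-q * T0) * Real.exp (-q * j)) *
        ENNReal.ofReal (A * Real.exp (g * (j + 1))) := by
    intro j
    have h5 := hw j
    refine mul_le_mul' (ENNReal.ofReal_le_ofReal (le_of_eq ?_)) ?_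
    · push_cast
      rw [mul_assoc, ← Real.exp_add]
      congr 2
      ring
    · push_cast at h5 ⊢
      exact h5
  have hsum : ∑' j : ℕ, ENNReal.ofReal (D * Real.exp (-q * (T0 + (((j + 1 : ℕ) : ℝ) - 1)))) *
      ∫⁻ x in Bw p n (T0 + ((j + 1 : ℕ) : ℝ)), W x * ((∏ i, ENNReal.ofReal (Real.exp (B (x.1 i)))) *
      ∏ i, ENNReal.ofReal (Real.exp (B (x.2 i)))) ≤
      ENNReal.ofReal (A * (D * Real.exp (-q * T0) * Real.exp g / (1 - Real.exp (-(q - g))))) := by
    refine (ENNReal.tsum_le_tsum hj).trans (le_of_eq ?_)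
    exact tsum_shell hA (by positivity) hg
  have h0' : ∫⁻ x in Bw p n (T0 + ((0 : ℕ) : ℝ)), W x * ((∏ i, ENNReal.ofReal (Real.exp (B (x.1 i)))) *
      ∏ i, ENNReal.ofReal (Real.exp (B (x.2 i)))) ≤ ENNReal.ofReal A0 := by
    rw [Nat.cast_zero, add_zero]
    exact hw0
  exact add_le_add h0' hsum

/-- **summation of the shells for the positive gas**, separate bound of the first window -/
theorem WO_shells0 {DX DX1 DY DY1 : ℝ → ℂ} (m1 : Measurable DX) (m2 : Measurable DX1) (m3 : Measurable DY)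
    (m4 : Measurable DY1) {a a' : ℝ → ℝ} (ma : Measurable a) (ma' : Measurable a') (ha : ∀ t, 0 ≤ a t)
    (ha' : ∀ t, 0 ≤ a' t) {E : (Fin p → ℝ) × (Fin n → ℝ) → ℝ} (mE : Measurable E) (hE : ∀ x, 0 ≤ E x)
    {c B : ℝ → ℝ} (hB : Measurable B) {D q g A A0 T0 : ℝ} (hD : 0 ≤ D) (hA : 0 ≤ A) (hq : 0 < q)
    (hg : g < q) (hB0 : ∀ t, 0 ≤ B t) (h0 : ∀ t, 0 ≤ c t) (h1 : ∀ t, c t ≤ Real.exp (B t))
    (h2 : ∀ t, c t ≤ D * Real.exp (-q * |t|))
    (hw0 : ∫⁻ x in Bw p n T0, ENNReal.ofReal (WO DX DX1 DY DY1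
      (fun t => a t * Real.exp (B t)) (fun t => a' t * Real.exp (B t)) x.1 x.2 * E x) ≤
      ENNReal.ofReal A0)
    (hw : ∀ j : ℕ, ∫⁻ x in Bw p n (T0 + (j + 1)), ENNReal.ofReal (WO DX DX1 DY DY1
      (fun t => a t * Real.exp (B t)) (fun t => a' t * Real.exp (B t)) x.1 x.2 * E x) ≤
      ENNReal.ofReal (A * Real.exp (g * (j + 1)))) :
    ∫⁻ x, ENNReal.ofReal (WO DX DX1 DY DY1 (fun t => a t * c t) (fun t => a' t * c t) x.1 x.2 * E x)
      ≤ ENNReal.ofReal A0 +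
        ENNReal.ofReal (A * (D * Real.exp (-q * T0) * Real.exp g / (1 - Real.exp (-(q - g))))) := by
  have key : ∀ (f : ℝ → ℝ), (∀ t, 0 ≤ f t) → ∀ x : (Fin p → ℝ) × (Fin n → ℝ),
      ENNReal.ofReal (WO DX DX1 DY DY1 (fun t => a t * f t) (fun t => a' t * f t) x.1 x.2 * E x) =
      ENNReal.ofReal (WO DX DX1 DY DY1 a a' x.1 x.2 * E x) *
        ((∏ i, ENNReal.ofReal (f (x.1 i))) * ∏ i, ENNReal.ofReal (f (x.2 i))) := by
    intro f hf x
    rw [WO_mul, ← ENNReal.ofReal_prod_of_nonneg fun i _ => hf _,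
      ← ENNReal.ofReal_prod_of_nonneg fun i _ => hf _,
      ← ENNReal.ofReal_mul (Finset.prod_nonneg fun i _ => hf _),
      ← ENNReal.ofReal_mul (mul_nonneg (WO_nonneg _ _ _ _ ha ha' _ _) (hE x))]
    congr 1
    ring
  simp only [key c h0]
  refine gas_shells0 (((WO_meas m1 m2 m3 m4 ma ma').mul mE).ennreal_ofReal) hB hD hA hq hg hB0 h1 h2
    ?_ fun j => ?_
  · refine (le_of_eq (lintegral_congr fun x => ?_)).trans hw0
    exact (key (fun t => Real.exp (B t)) (fun t => (Real.exp_pos _).le) x).symm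
  · refine (le_of_eq (lintegral_congr fun x => ?_)).trans (hw j)
    exact (key (fun t => Real.exp (B t)) (fun t => (Real.exp_pos _).le) x).symm

/-- **the whole integral**, window bounds for real half lengths -/
theorem WO_full {DX DX1 DY DY1 : ℝ → ℂ} (m1 : Measurable DX) (m2 : Measurable DX1) (m3 : Measurable DY)
    (m4 : Measurable DY1) {a a' : ℝ → ℝ} (ma : Measurable a) (ma' : Measurable a') (ha : ∀ t, 0 ≤ a t)
    (ha' : ∀ t, 0 ≤ a' t) {E : (Fin p → ℝ) × (Fin n → ℝ) → ℝ} (mE : Measurable E) (hE : ∀ x, 0 ≤ E x)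
    {c B : ℝ → ℝ} (hB : Measurable B) {D q g A T0 : ℝ} (hD : 0 ≤ D) (hA : 0 ≤ A) (hq : 0 < q)
    (hg : g < q) (hB0 : ∀ t, 0 ≤ B t) (h0 : ∀ t, 0 ≤ c t) (h1 : ∀ t, c t ≤ Real.exp (B t))
    (h2 : ∀ t, c t ≤ D * Real.exp (-q * |t|))
    (hw : ∀ T, T0 ≤ T → ∫⁻ x in Bw p n T, ENNReal.ofReal (WO DX DX1 DY DY1
      (fun t => a t * Real.exp (B t)) (fun t => a' t * Real.exp (B t)) x.1 x.2 * E x) ≤
      ENNReal.ofReal (A * Real.exp (g * (T - T0)))) :
    ∫⁻ x, ENNReal.ofReal (WO DX DX1 DY DY1 (fun t => a t * c t) (fun t => a' t * c t) x.1 x.2 * E x)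
      ≤ ENNReal.ofReal (A * (1 + D * Real.exp (-q * T0) * Real.exp g / (1 - Real.exp (-(q - g))))) := by
  refine WO_shells m1 m2 m3 m4 ma ma' ha ha' mE hE hB hD hA hq hg hB0 h0 h1 h2 fun j => ?_
  have h := hw (T0 + j) (by linarith [(Nat.cast_nonneg j : (0 : ℝ) ≤ j)])
  rwa [add_sub_cancel_left] at h

/-- **the tail** -/
theorem WO_tail {DX DX1 DY DY1 : ℝ → ℂ} (m1 : Measurable DX) (m2 : Measurable DX1) (m3 : Measurable DY)
    (m4 : Measurable DY1) {a a' : ℝ → ℝ} (ma : Measurable a) (ma' : Measurable a') (ha : ∀ t, 0 ≤ a t)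
    (ha' : ∀ t, 0 ≤ a' t) {E : (Fin p → ℝ) × (Fin n → ℝ) → ℝ} (mE : Measurable E) (hE : ∀ x, 0 ≤ E x)
    {c B : ℝ → ℝ} (hB : Measurable B) {D q g A T0 R : ℝ} (hD : 0 ≤ D) (hA : 0 ≤ A) (hq : 0 < q)
    (hg : g < q) (hB0 : ∀ t, 0 ≤ B t) (h0 : ∀ t, 0 ≤ c t) (h1 : ∀ t, c t ≤ Real.exp (B t))
    (h2 : ∀ t, c t ≤ D * Real.exp (-q * |t|)) (hTR : T0 ≤ R)
    (hw : ∀ T, T0 ≤ T → ∫⁻ x in Bw p n T, ENNReal.ofReal (WO DX DX1 DY DY1
      (fun t => a t * Real.exp (B t)) (fun t => a' t * Real.exp (B t)) x.1 x.2 * E x) ≤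
      ENNReal.ofReal (A * Real.exp (g * (T - T0)))) :
    ∫⁻ x in (Bw p n R)ᶜ, ENNReal.ofReal (WO DX DX1 DY DY1 (fun t => a t * c t)
        (fun t => a' t * c t) x.1 x.2 * E x) ≤
      ENNReal.ofReal (A * (D * Real.exp (-q * T0) * Real.exp (-(q - g) * (R - T0)) * Real.exp g /
        (1 - Real.exp (-(q - g))))) := by
  have hms := Bw_meas (p := p) (n := n) R
  obtain ⟨E1, hE1⟩ : ∃ E1 : (Fin p → ℝ) × (Fin n → ℝ) → ℝ, E1 = (Bw p n R)ᶜ.indicator E := ⟨_, rfl⟩
  have mE1 : Measurable E1 := by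
    rw [hE1]
    exact mE.indicator hms.compl
  have E10 : ∀ x, 0 ≤ E1 x := by
    intro x
    rw [hE1]
    exact indicator_nonneg (fun x _ => hE x) x
  have Ele : ∀ x, E1 x ≤ E x := by
    intro x
    rw [hE1]
    exact indicator_le_self' (fun x _ => hE x) x
  have W0 : ∀ x : (Fin p → ℝ) × (Fin n → ℝ), 0 ≤ WO DX DX1 DY DY1
      (fun t => a t * Real.exp (B t)) (fun t => a' t * Real.exp (B t)) x.1 x.2 := fun x =>
    WO_nonneg _ _ _ _ (fun t => mul_nonneg (ha t) (Real.exp_pos _).le)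
      (fun t => mul_nonneg (ha' t) (Real.exp_pos _).le) _ _
  have key := WO_shells0 (p := p) (n := n) m1 m2 m3 m4 ma ma' ha ha' mE1 E10 hB (D := D) (q := q)
    (g := g) (A := A * Real.exp (g * (R - T0))) (A0 := 0) (T0 := R) hD (by positivity) hq hg hB0 h0
    h1 h2 (by
      rw [ENNReal.ofReal_zero, nonpos_iff_eq_zero]
      refine (lintegral_eq_zero_iff' ?_).2 ?_
      · refine Measurable.aemeasurable ?_
        have := WO_meas (p := p) (n := n) m1 m2 m3 m4 (ma.mul (Real.measurable_exp.comp hB))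
          (ma'.mul (Real.measurable_exp.comp hB))
        exact (this.mul mE1).ennreal_ofReal
      · filter_upwards [ae_restrict_mem hms] with x hx
        have : E1 x = 0 := by
          rw [hE1, indicator_of_notMem]
          exact fun h => h hx
        rw [this, mul_zero, ENNReal.ofReal_zero]
        rfl) (by
      intro j
      have hj0 : (0 : ℝ) ≤ j := Nat.cast_nonneg j
      have h := hw (R + (j + 1)) (by linarith)
      refine le_trans (lintegral_mono fun x => ?_) (h.trans (ENNReal.ofReal_le_ofReal ?_))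
      · refine ENNReal.ofReal_le_ofReal ?_
        exact mul_le_mul_of_nonneg_left (Ele x) (W0 x)
      · rw [mul_assoc, ← Real.exp_add]
        refine mul_le_mul_of_nonneg_left (Real.exp_le_exp.2 (le_of_eq ?_)) hA
        ring)
  rw [ENNReal.ofReal_zero, zero_add] at key
  refine le_trans (le_of_eq ?_) (key.trans (ENNReal.ofReal_le_ofReal (le_of_eq ?_)))
  · rw [← lintegral_indicator hms.compl]
    refine lintegral_congr fun x => ?_
    by_cases hx : x ∈ (Bw p n R)ᶜ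
    · rw [indicator_of_mem hx, hE1, indicator_of_mem hx]
    · rw [indicator_of_notMem hx, hE1, indicator_of_notMem hx, mul_zero, ENNReal.ofReal_zero]
  · rw [show -(q - g) * (R - T0) = g * (R - T0) + (-q * R) - (-q * T0) by ring, Real.exp_sub,
      Real.exp_add]
    have := (Real.exp_pos (-q * T0)).ne'
    field_simp

end

end NU42
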