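import Pool.Agent.NU42.Phi

/-!
# The majorant of the cutoff factor is at most one

`exists_B1'`: `exists_B1` with the additional clause `B t ≤ 1`.
-/

set_option autoImplicit false

open MeasureTheory Set Filter Topology

namespace NU42

noncomputable section

open PhiB

lemma G_le_one {p c : ℝ} (hc : 0 ≤ c) (r a t : ℝ) : G p c r a 0 0 0 t ≤ 1 := by
  unfold G F ch
  rw [iteratedDeriv_zero, pow_zero, pow_zero, one_mul, mul_one]
  have h1 : Real.exp (-(c * Real.exp (-(p * (gg t - a))))) ≤ 1 := by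
    rw [Real.exp_le_one_iff]
    have := mul_nonneg hc (Real.exp_pos (-(p * (gg t - a)))).le
    linarith
  have h2 : chi r (gg t - a) ≤ 1 := Real.smoothTransition.le_one _
  have h3 := chi_nonneg r (gg t - a)
  calc _ ≤ 1 * 1 := mul_le_mul h1 h2 h3 zero_le_one
    _ = 1 := one_mul 1

/-- **the smooth majorant of the cutoff factor** -/
theorem exists_B1' {b s : ℝ} (h : NUP1.Adm b s) (hb : 2 * b ≤ 8 / 3) : ∃ C : ℝ, 1 ≤ C ∧ ∀ M : ℕ, 1 ≤ M →
    ∃ B B' : ℝ → ℝ, ContDiff ℝ 4 B ∧ (∀ t, HasDerivAt B (B' t) t) ∧ (∀ t, 0 ≤ B t) ∧ (∀ t, B t ≤ 1) ∧ (∀ t, B t ≤ C) ∧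
      (∀ j ≤ 4, ∀ t, |iteratedDeriv j B t| ≤ C) ∧ (∀ t, Real.log M / (2 * b) + C ≤ |t| → B t = 0) ∧
      Integrable (fun t => M * NUMF.P t * B t) ∧ (∫ t, M * NUMF.P t * B t) ≤ C ∧
      Integrable (fun t => B t ^ 2 + B' t ^ 2) ∧ (∫ t, B t ^ 2 + B' t ^ 2) ≤ C ∧
      ∀ u : ℂ, |u.re + NUP1.l / 2| ≤ s → ‖NUP1.phi b (List.replicate M 0) u‖ ≤ Real.exp (B u.im) ∧
        ‖NUP1.phi b (List.replicate M 0) u‖ ≤ C * M * Real.exp (-(2 * b) * |u.im|) := by
  have hk := h.kap_pos
  have hcl := h.cl_pos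
  have hb0 := h.pos
  obtain ⟨p, hp⟩ : ∃ p : ℝ, p = 2 * b := ⟨_, rfl⟩
  have hp0 : 0 < p := by rw [hp]; linarith
  obtain ⟨c, hc⟩ : ∃ c : ℝ, c = NUP1.cl b * NUP1.kap b s / 2 := ⟨_, rfl⟩
  have hc0 : 0 < c := by rw [hc]; positivity
  obtain ⟨C1, hC1⟩ : ∃ C1 : ℝ, C1 = 4 / NUP1.kap b s := ⟨_, rfl⟩
  have hC10 : 0 < C1 := by rw [hC1]; positivity
  obtain ⟨x1, hx1⟩ : ∃ x1 : ℝ, x1 = max 0 (Real.log C1 / p) := ⟨_, rfl⟩
  have hx10 : 0 ≤ x1 := by rw [hx1]; exact le_max_left _ _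
  have hx11 : C1 * Real.exp (-(p * x1)) ≤ 1 := by
    have h1 : Real.log C1 ≤ p * x1 := by
      have h2 : Real.log C1 / p ≤ x1 := by rw [hx1]; exact le_max_right _ _
      rw [div_le_iff₀ hp0] at h2
      linarith
    calc C1 * Real.exp (-(p * x1)) = Real.exp (Real.log C1) * Real.exp (-(p * x1)) := by rw [Real.exp_log hC10]
      _ = Real.exp (Real.log C1 - p * x1) := by rw [← Real.exp_add]; rfl
      _ ≤ 1 := by rw [Real.exp_le_one_iff]; linarith
  obtain ⟨r, hr⟩ : ∃ r : ℝ, r = x1 + 2 := ⟨_, rfl⟩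
  obtain ⟨C4, hC4⟩ := G_bd hp0 hc0 r 4 0 0 0
  obtain ⟨K0, hK0, hG0⟩ := G_dom hp0 hc0 r 0 0 0
  obtain ⟨K1, hK1, hG1⟩ := G_dom hp0 hc0 r 1 0 1
  obtain ⟨K2, hK2, hG2⟩ := G_dom hp0 hc0 r 0 1 1
  obtain ⟨q, hq⟩ : ∃ q : ℝ, q = 32 / (3 * √3 * Real.pi) := ⟨_, rfl⟩
  have hq0 : 0 < q := by
    rw [hq]
    have := NUMF.sq3_pos
    have := Real.pi_pos
    positivity
  obtain ⟨K3, hK3⟩ : ∃ K3 : ℝ, K3 = p * c * K1 + K2 := ⟨_, rfl⟩
  have hK30 : 0 ≤ K3 := by rw [hK3]; positivity
  have hC40 : 0 ≤ C4 := (hC4 0).nonneg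
  refine ⟨1 + C4 + r + 1 + C1 + q * K0 * (4 / p) + (K0 * K0 + K3 * K3) * (4 / p), ?_, ?_⟩
  · have : 0 ≤ q * K0 * (4 / p) + (K0 * K0 + K3 * K3) * (4 / p) := by positivity
    rw [hr]
    linarith
  intro M hM
  have hM1 : (1 : ℝ) ≤ M := by exact_mod_cast hM
  have hM0 : (0 : ℝ) < M := by linarith
  obtain ⟨a, ha⟩ : ∃ a : ℝ, a = Real.log M / p := ⟨_, rfl⟩
  have ha0 : 0 ≤ a := by
    rw [ha]
    exact div_nonneg (Real.log_nonneg hM1) hp0.le
  have hMa : (M : ℝ) = Real.exp (p * a) := by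
    rw [ha, mul_div_cancel₀ _ hp0.ne', Real.exp_log hM0]
  have hq1 : 0 ≤ q * K0 * (4 / p) := by positivity
  have hq2 : 0 ≤ (K0 * K0 + K3 * K3) * (4 / p) := by positivity
  obtain ⟨hdi, hdv⟩ := dom_int hp0 (a + r)
  have hd0 : ∀ t, 0 < dom p (a + r) t := fun t => by
    unfold dom
    positivity
  have hB' : ∀ t, |B1' p c r a t| ≤ K3 ∧ |B1' p c r a t| ≤ K3 * dom p (a + r) t := by
    intro t
    obtain ⟨g1, g2, _⟩ := hG1 a t
    obtain ⟨k1, k2, _⟩ := hG2 a t
    have hpc : 0 ≤ p * c := by positivity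
    have h0 : |B1' p c r a t| ≤ p * c * |G p c r a 1 0 1 t| + |G p c r a 0 1 1 t| := by
      unfold B1'
      refine (abs_add_le _ _).trans (add_le_add ?_ le_rfl)
      rw [abs_mul, abs_of_nonneg hpc]
    constructor
    · refine h0.trans ?_
      rw [hK3]
      exact add_le_add (mul_le_mul_of_nonneg_left g1 hpc) k1
    · refine h0.trans ?_
      rw [hK3, add_mul, mul_assoc (p * c) K1]
      exact add_le_add (mul_le_mul_of_nonneg_left g2 hpc) k2
  have hBc : Continuous (G p c r a 0 0 0) := G_cont 0 0 0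
  have hB'c : Continuous (B1' p c r a) := by
    unfold B1'
    exact (continuous_const.mul (G_cont 1 0 1)).add (G_cont 0 1 1)
  -- the density
  have hP : ∀ t, |M * NUMF.P t * G p c r a 0 0 0 t| ≤ q * K0 * dom p (a + r) t := by
    intro t
    obtain ⟨_, _, g3⟩ := hG0 a t
    have h1 := NUMF.P_le t
    rw [← hq] at h1
    have h2 : M * NUMF.P t ≤ q * Real.exp (-(p * (|t| - a))) := by
      calc M * NUMF.P t ≤ Real.exp (p * a) * (q * Real.exp (-(8 / 3) * |t|)) := by
            rw [hMa]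
            exact mul_le_mul_of_nonneg_left h1 (Real.exp_pos _).le
        _ ≤ Real.exp (p * a) * (q * Real.exp (-p * |t|)) := by
            gcongr
            rw [hp]
            exact hb
        _ = q * Real.exp (-(p * (|t| - a))) := by
            rw [show -(p * (|t| - a)) = p * a + -p * |t| by ring, Real.exp_add]
            ring
    rw [abs_mul, abs_of_nonneg (mul_nonneg hM0.le (NUMF.P_pos t).le)]
    calc _ ≤ q * Real.exp (-(p * (|t| - a))) * |G p c r a 0 0 0 t| :=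
          mul_le_mul_of_nonneg_right h2 (abs_nonneg _)
      _ = q * (Real.exp (-(p * (|t| - a))) * |G p c r a 0 0 0 t|) := by ring
      _ ≤ q * (K0 * dom p (a + r) t) := mul_le_mul_of_nonneg_left g3 hq0.le
      _ = _ := by ring
  have hPi : Integrable (fun t => M * NUMF.P t * G p c r a 0 0 0 t) := by
    refine Integrable.mono' (hdi.const_mul (q * K0)) ?_ (Eventually.of_forall fun t => ?_)
    · exact ((continuous_const.mul NUMF.P_cont).mul hBc).aestronglyMeasurable
    · rw [Real.norm_eq_abs]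
      exact hP t
  have hS : ∀ t, G p c r a 0 0 0 t ^ 2 + B1' p c r a t ^ 2 ≤ (K0 * K0 + K3 * K3) * dom p (a + r) t := by
    intro t
    obtain ⟨g1, g2, _⟩ := hG0 a t
    obtain ⟨k1, k2⟩ := hB' t
    have e1 : G p c r a 0 0 0 t ^ 2 ≤ K0 * (K0 * dom p (a + r) t) := by
      rw [← sq_abs, sq]
      exact mul_le_mul g1 g2 (abs_nonneg _) hK0
    have e2 : B1' p c r a t ^ 2 ≤ K3 * (K3 * dom p (a + r) t) := by
      rw [← sq_abs, sq]
      exact mul_le_mul k1 k2 (abs_nonneg _) hK30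
    linarith
  have hSi : Integrable (fun t => G p c r a 0 0 0 t ^ 2 + B1' p c r a t ^ 2) := by
    refine Integrable.mono' (hdi.const_mul (K0 * K0 + K3 * K3)) ?_ (Eventually.of_forall fun t => ?_)
    · exact ((hBc.pow 2).add (hB'c.pow 2)).aestronglyMeasurable
    · rw [Real.norm_eq_abs, abs_of_nonneg (by positivity)]
      exact hS t
  refine ⟨G p c r a 0 0 0, B1' p c r a, ?_, hasDerivAt_B1 p c r a, G_nonneg p c r a,
    G_le_one hc0.le r a, ?_, ?_, ?_, hPi, ?_, hSi, ?_, ?_⟩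
  · exact_mod_cast (hC4 a).contDiff
  · intro t
    refine (le_abs_self _).trans (((hC4 a).bdd t).trans ?_)
    rw [hr]
    linarith
  · intro j hj t
    refine ((hC4 a).iter j hj t).trans ?_
    rw [hr]
    linarith
  · intro t ht
    rw [← hp, ← ha] at ht
    obtain ⟨K, hK, hK'⟩ := G_le (r := r) hp0 hc0 0 0 0
    refine (hK' a t).2 ?_
    linarith
  · calc ∫ t, M * NUMF.P t * G p c r a 0 0 0 t ≤ ∫ t, q * K0 * dom p (a + r) t := by
          refine integral_mono hPi (hdi.const_mul _) fun t => (le_abs_self _).trans (hP t)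
      _ = q * K0 * (4 / p) := by rw [integral_const_mul, hdv]
      _ ≤ _ := by
          rw [hr]
          linarith
  · calc ∫ t, G p c r a 0 0 0 t ^ 2 + B1' p c r a t ^ 2 ≤ ∫ t, (K0 * K0 + K3 * K3) * dom p (a + r) t := by
          refine integral_mono hSi (hdi.const_mul _) fun t => hS t
      _ = (K0 * K0 + K3 * K3) * (4 / p) := by rw [integral_const_mul, hdv]
      _ ≤ _ := by
          rw [hr]
          linarith
  · intro u hu
    have hu' : ∀ x ∈ List.replicate M (0 : ℂ), |(u - x).re + NUP1.l / 2| ≤ s := by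
      intro x hx
      rw [List.eq_of_mem_replicate hx, sub_zero]
      exact hu
    have h1 := NUP1.norm_phi_sub_one h hu'
    have h2 := NUP1.norm_phi_le h hu'
    rw [list_sum, ← hc, ← hp] at h1
    rw [list_sum, ← hC1, ← hp] at h2
    have hMe : M * Real.exp (-p * |u.im|) = Real.exp (-(p * (|u.im| - a))) := by
      rw [hMa, ← Real.exp_add]
      ring_nf
    constructor
    · by_cases hc1 : |u.im| - a ≤ x1
      · have hg1 := gg_le u.im
        have hg2 := abs_le_gg u.im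
        rw [G_eq (by rw [hr]; linarith)]
        have h3 : ‖NUP1.phi b (List.replicate M 0) u‖ ≤
            1 + Real.exp (-(c * Real.exp (-(p * (|u.im| - a))))) := by
          rw [hMe] at h1
          have h4 := norm_le_norm_add_norm_sub' (NUP1.phi b (List.replicate M 0) u) 1
          rw [norm_one] at h4
          linarith
        have h5 : Real.exp (-(c * Real.exp (-(p * (|u.im| - a))))) ≤
            Real.exp (-(c * Real.exp (-(p * (gg u.im - a))))) := by
          gcongr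
        have h6 := Real.add_one_le_exp (Real.exp (-(c * Real.exp (-(p * (gg u.im - a))))))
        linarith
      · push Not at hc1
        have h3 : ‖NUP1.phi b (List.replicate M 0) u‖ ≤ 1 := by
          refine h2.trans ?_
          rw [hMe]
          refine le_trans ?_ hx11
          gcongr
        exact h3.trans (Real.one_le_exp (G_nonneg _ _ _ _ _))
    · refine h2.trans ?_
      rw [← hp, mul_assoc]
      refine mul_le_mul_of_nonneg_right ?_ (by positivity)
      rw [hr]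
      linarith

end

end NU42
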