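import Mathlib

/-!
# Shells: far particles through the outermost one

`shell`: the cutoff factor `c` of every particle is `≤ b`, and `≤ ε (j+1) * b` outside the window `K j`.
Then the full integral is at most the sum of the window integrals with `b` in place of `c`, the
window `K (j+1)` weighted with `ε (j+1)`.
-/

set_option autoImplicit false

open MeasureTheory Set Filter Topology
open scoped ENNReal

namespace NU42

variable {ι Ω : Type*} [Fintype ι] [MeasurableSpace Ω] {μ : Measure Ω}

/-- all particles in the window `K` -/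
def win (x : ι → Ω → ℝ) (K : Set ℝ) : Set Ω := {t | ∀ i, x i t ∈ K}

omit [MeasurableSpace Ω] in
/-- pointwise form of the shell decomposition -/
lemma shell_pt (x : ι → Ω → ℝ) {W : Ω → ℝ≥0∞} {c b : ℝ → ℝ≥0∞}
    {K : ℕ → Set ℝ} (hK : Monotone K) (hU : ⋃ j, K j = univ) (hcb : ∀ t, c t ≤ b t)
    {ε : ℕ → ℝ≥0∞} (hε : ∀ j t, t ∉ K j → c t ≤ ε (j + 1) * b t) (t : Ω) :
    W t * ∏ i, c (x i t) ≤
      (win x (K 0)).indicator (fun t => W t * ∏ i, b (x i t)) t +
        ∑' j, ε (j + 1) * (win x (K (j + 1))).indicator (fun t => W t * ∏ i, b (x i t)) t := by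
  classical
  have hex : ∃ j, ∀ i, x i t ∈ K j := by
    have h1 : ∀ i, ∃ j, x i t ∈ K j := fun i => mem_iUnion.1 (hU ▸ mem_univ (x i t))
    choose f hf using h1
    exact ⟨Finset.univ.sup f, fun i => hK (Finset.le_sup (Finset.mem_univ i)) (hf i)⟩
  have hmin := fun m => @Nat.find_min _ _ hex m
  have hsp := Nat.find_spec hex
  generalize hk : Nat.find hex = k at hsp hmin
  rcases k with _ | k
  · refine le_trans ?_ le_self_add
    rw [indicator_of_mem (show t ∈ win x (K 0) from hsp)]
    gcongr with i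
    exact hcb _
  · refine le_trans ?_ le_add_self
    refine le_trans ?_ (ENNReal.le_tsum k)
    rw [indicator_of_mem (show t ∈ win x (K (k + 1)) from hsp)]
    have h2 : ∃ i, x i t ∉ K k := by
      have h3 := hmin k (Nat.lt_succ_self k)
      push Not at h3
      exact h3
    obtain ⟨i0, hi0⟩ := h2
    rw [← Finset.mul_prod_erase _ _ (Finset.mem_univ i0),
      ← Finset.mul_prod_erase _ (fun i => b (x i t)) (Finset.mem_univ i0)]
    calc W t * (c (x i0 t) * ∏ i ∈ Finset.univ.erase i0, c (x i t)) ≤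
        W t * ((ε (k + 1) * b (x i0 t)) * ∏ i ∈ Finset.univ.erase i0, b (x i t)) := by
          gcongr with i
          · exact hε k _ hi0
          · exact hcb _
      _ = _ := by ring

/-- **Shell decomposition.** -/
theorem shell (x : ι → Ω → ℝ) (hx : ∀ i, Measurable (x i)) {W : Ω → ℝ≥0∞}
    (hW : Measurable W) {c b : ℝ → ℝ≥0∞} (hb : Measurable b)
    {K : ℕ → Set ℝ} (hK : Monotone K) (hKm : ∀ j, MeasurableSet (K j))
    (hU : ⋃ j, K j = univ) (hcb : ∀ t, c t ≤ b t)
    {ε : ℕ → ℝ≥0∞} (hε : ∀ j t, t ∉ K j → c t ≤ ε (j + 1) * b t) :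
    ∫⁻ t, W t * ∏ i, c (x i t) ∂μ ≤
      ∫⁻ t in win x (K 0), W t * ∏ i, b (x i t) ∂μ +
        ∑' j, ε (j + 1) * ∫⁻ t in win x (K (j + 1)), W t * ∏ i, b (x i t) ∂μ := by
  have hm : Measurable fun t => W t * ∏ i, b (x i t) :=
    hW.mul (Finset.measurable_prod _ fun i _ => hb.comp (hx i))
  have hs : ∀ j, MeasurableSet (win x (K j)) := by
    intro j
    have : win x (K j) = ⋂ i, x i ⁻¹' K j := by
      ext t
      simp [win]
    rw [this]
    exact MeasurableSet.iInter fun i => hx i (hKm j)
  refine (lintegral_mono (shell_pt x hK hU hcb hε)).trans (le_of_eq ?_)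
  rw [lintegral_add_left (hm.indicator (hs 0)), lintegral_indicator (hs 0),
    lintegral_tsum fun j => ((hm.indicator (hs _)).const_mul _).aemeasurable]
  congr 1
  refine tsum_congr fun j => ?_
  rw [lintegral_const_mul _ (hm.indicator (hs _)), lintegral_indicator (hs _)]

end NU42
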