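import Pool.Agent.NUP1.Cutoff
import Pool.Agent.NUP.MF.Dens
import Pool.Agent.NU42.Shell

/-!
# The cutoff factor of the quanta for the shells

`exists_B1`: the modulus of the cutoff `phi` of `M` rows at `0` is at most `exp (B t)`, `t` the height, with a smooth
nonnegative function `B` which vanishes beyond the edge and has energy `O(1)` uniformly in `M`.
-/

set_option autoImplicit false

open MeasureTheory Set Filter Topology

namespace NU42

noncomputable section

namespace PhiB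

/-! ### functions with bounded derivatives -/

/-- `f` has `j` continuous derivatives, all bounded by `C` -/
def Bd (C : ℝ) : ℕ → (ℝ → ℝ) → Prop
  | 0, f => Continuous f ∧ ∀ t, |f t| ≤ C
  | j + 1, f => (∀ t, |f t| ≤ C) ∧ ∃ f' : ℝ → ℝ, (∀ t, HasDerivAt f (f' t) t) ∧ Bd C j f'

lemma Bd.bdd {C : ℝ} {j : ℕ} {f : ℝ → ℝ} (h : Bd C j f) : ∀ t, |f t| ≤ C := by
  cases j with
  | zero => exact h.2
  | succ j => exact h.1

lemma Bd.nonneg {C : ℝ} {j : ℕ} {f : ℝ → ℝ} (h : Bd C j f) : 0 ≤ C := (abs_nonneg _).trans (h.bdd 0)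

lemma Bd.mono {C C' : ℝ} (hC : C ≤ C') {j : ℕ} {f : ℝ → ℝ} (h : Bd C j f) : Bd C' j f := by
  induction j generalizing f with
  | zero => exact ⟨h.1, fun t => (h.2 t).trans hC⟩
  | succ j ih =>
    obtain ⟨h1, f', h2, h3⟩ := h
    exact ⟨fun t => (h1 t).trans hC, f', h2, ih h3⟩

lemma Bd.add {C C' : ℝ} {j : ℕ} {f g : ℝ → ℝ} (hf : Bd C j f) (hg : Bd C' j g) :
    Bd (C + C') j (fun t => f t + g t) := by
  induction j generalizing f g with
  | zero => exact ⟨hf.1.add hg.1, fun t => (abs_add_le _ _).trans (add_le_add (hf.2 t) (hg.2 t))⟩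
  | succ j ih =>
    obtain ⟨h1, f', h2, h3⟩ := hf
    obtain ⟨k1, g', k2, k3⟩ := hg
    exact ⟨fun t => (abs_add_le _ _).trans (add_le_add (h1 t) (k1 t)), fun t => f' t + g' t,
      fun t => (h2 t).add (k2 t), ih h3 k3⟩

lemma Bd.smul (a : ℝ) {C : ℝ} {j : ℕ} {f : ℝ → ℝ} (hf : Bd C j f) : Bd (|a| * C) j (fun t => a * f t) := by
  induction j generalizing f with
  | zero =>
    exact ⟨continuous_const.mul hf.1, fun t => by
      rw [abs_mul]
      exact mul_le_mul_of_nonneg_left (hf.2 t) (abs_nonneg a)⟩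
  | succ j ih =>
    obtain ⟨h1, f', h2, h3⟩ := hf
    exact ⟨fun t => by
      rw [abs_mul]
      exact mul_le_mul_of_nonneg_left (h1 t) (abs_nonneg a), fun t => a * f' t,
      fun t => (h2 t).const_mul a, ih h3⟩

lemma Bd.congr {C : ℝ} {j : ℕ} {f g : ℝ → ℝ} (h : Bd C j f) (e : ∀ t, f t = g t) : Bd C j g := by
  rw [← funext e]
  exact h

lemma Bd.contDiff {C : ℝ} {j : ℕ} {f : ℝ → ℝ} (h : Bd C j f) : ContDiff ℝ j f := by
  induction j generalizing f with
  | zero => exact contDiff_zero.2 h.1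
  | succ j ih =>
    obtain ⟨_, f', h2, h3⟩ := h
    have e : deriv f = f' := funext fun t => (h2 t).deriv
    have : ((j + 1 : ℕ) : WithTop ℕ∞) = (j : WithTop ℕ∞) + 1 := by push_cast; rfl
    rw [this, contDiff_succ_iff_deriv]
    refine ⟨fun t => (h2 t).differentiableAt, fun h => ?_, ?_⟩
    · exfalso
      exact absurd h (by simp)
    · rw [e]
      exact ih h3

lemma Bd.iter {C : ℝ} {j : ℕ} {f : ℝ → ℝ} (h : Bd C j f) : ∀ i ≤ j, ∀ t, |iteratedDeriv i f t| ≤ C := by
  induction j generalizing f with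
  | zero =>
    intro i hi t
    obtain rfl : i = 0 := by omega
    rw [iteratedDeriv_zero]
    exact h.2 t
  | succ j ih =>
    intro i hi t
    rcases i with _ | i
    · rw [iteratedDeriv_zero]
      exact h.1 t
    · obtain ⟨_, f', h2, h3⟩ := h
      have e : deriv f = f' := funext fun t => (h2 t).deriv
      rw [iteratedDeriv_succ', e]
      exact ih h3 i (by omega) t

/-! ### the step -/

/-- the smooth step: `1` for `x ≤ r - 1`, `0` for `r ≤ x` -/
def chi (r : ℝ) (x : ℝ) : ℝ := Real.smoothTransition (r - x)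

lemma chi_smooth (r : ℝ) : ContDiff ℝ ((⊤ : ℕ∞) : WithTop ℕ∞) (chi r) := by
  unfold chi
  exact Real.smoothTransition.contDiff.comp (contDiff_const.sub contDiff_id)

/-- the derivatives of the step -/
def ch (r : ℝ) (i : ℕ) : ℝ → ℝ := iteratedDeriv i (chi r)

lemma hasDerivAt_ch (r : ℝ) (i : ℕ) (x : ℝ) : HasDerivAt (ch r i) (ch r (i + 1) x) x := by
  unfold ch
  rw [iteratedDeriv_succ]
  have h : Differentiable ℝ (iteratedDeriv i (chi r)) :=
    (chi_smooth r).differentiable_iteratedDeriv i (by exact_mod_cast (WithTop.coe_lt_top _))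
  exact (h x).hasDerivAt

lemma ch_cont (r : ℝ) (i : ℕ) : Continuous (ch r i) :=
  continuous_iff_continuousAt.2 fun x => (hasDerivAt_ch r i x).continuousAt

lemma ch_zero (r : ℝ) (i : ℕ) {x : ℝ} (hx : r < x) : ch r i x = 0 := by
  have h : (chi r) =ᶠ[𝓝 x] (fun _ => 0) := by
    filter_upwards [eventually_gt_nhds hx] with y hy
    exact Real.smoothTransition.zero_of_nonpos (by linarith)
  unfold ch
  rw [h.iteratedDeriv_eq]
  simp

lemma ch_low (r : ℝ) (i : ℕ) {x : ℝ} (hx : x < r - 1) : ch r (i + 1) x = 0 := by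
  have h : (chi r) =ᶠ[𝓝 x] (fun _ => 1) := by
    filter_upwards [eventually_lt_nhds hx] with y hy
    exact Real.smoothTransition.one_of_one_le (by linarith)
  unfold ch
  rw [h.iteratedDeriv_eq]
  simp [iteratedDeriv_const]

lemma ch_bdd (r : ℝ) (i : ℕ) : ∃ K : ℝ, 0 ≤ K ∧ ∀ x, |ch r i x| ≤ K := by
  rcases i with _ | i
  · refine ⟨1, zero_le_one, fun x => ?_⟩
    unfold ch chi
    rw [iteratedDeriv_zero, abs_of_nonneg (Real.smoothTransition.nonneg _)]
    exact Real.smoothTransition.le_one _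
  · obtain ⟨K, hK⟩ := (isCompact_Icc (a := r - 1) (b := r)).exists_bound_of_continuousOn
      (ch_cont r (i + 1)).continuousOn
    refine ⟨max K 0, le_max_right _ _, fun x => ?_⟩
    by_cases h1 : x < r - 1
    · rw [ch_low r i h1, abs_zero]
      exact le_max_right _ _
    · by_cases h2 : r < x
      · rw [ch_zero r (i + 1) h2, abs_zero]
        exact le_max_right _ _
      · have := hK x ⟨by linarith, by linarith⟩
        rw [Real.norm_eq_abs] at this
        exact this.trans (le_max_left _ _)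

/-! ### the family -/

/-- `y^k exp (- c y) chi^(i)`, `y = exp (- p x)` -/
def F (p c r : ℝ) (k i : ℕ) (x : ℝ) : ℝ :=
  Real.exp (-(p * x)) ^ k * Real.exp (-(c * Real.exp (-(p * x)))) * ch r i x

lemma hasDerivAt_F (p c r : ℝ) (k i : ℕ) (x : ℝ) :
    HasDerivAt (F p c r k i) (-(p * k) * F p c r k i x + p * c * F p c r (k + 1) i x + F p c r k (i + 1) x) x := by
  have h0 : HasDerivAt (fun x : ℝ => -(p * x)) (-p) x := by
    simpa using ((hasDerivAt_id x).const_mul p).fun_neg
  have h1 := h0.exp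
  have h2 := ((h1.const_mul c).fun_neg).exp
  have h3 := (h1.fun_pow k)
  have h4 := (h3.fun_mul h2).fun_mul (hasDerivAt_ch r i x)
  refine h4.congr_deriv ?_
  unfold F
  rcases k with _ | k
  · simp
    ring
  · simp only [Nat.add_sub_cancel]
    push_cast
    ring

lemma pow_exp_le {c : ℝ} (hc : 0 < c) (n : ℕ) {y : ℝ} (hy : 0 ≤ y) :
    y ^ n * Real.exp (-(c * y)) ≤ (n.factorial : ℝ) / c ^ n := by
  have h := Real.pow_div_factorial_le_exp (c * y) (by positivity) n
  have hf : (0 : ℝ) < n.factorial := by exact_mod_cast n.factorial_pos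
  rw [Real.exp_neg, ← div_eq_mul_inv, div_le_div_iff₀ (Real.exp_pos _) (by positivity)]
  rw [div_le_iff₀ hf, mul_pow] at h
  linarith

/-- decay to the left -/
lemma F_le {p c : ℝ} (hc : 0 < c) (r : ℝ) (k i : ℕ) : ∃ K : ℝ, 0 ≤ K ∧ ∀ x,
    |F p c r k i x| ≤ K * Real.exp (p * x) ^ 2 := by
  obtain ⟨K, hK0, hK⟩ := ch_bdd r i
  have hf : (0 : ℝ) < (k + 2).factorial := by exact_mod_cast (k + 2).factorial_pos
  refine ⟨((k + 2).factorial : ℝ) / c ^ (k + 2) * K, by positivity, fun x => ?_⟩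
  have h1 := pow_exp_le hc (k + 2) (Real.exp_pos (-(p * x))).le
  have hy := Real.exp_pos (-(p * x))
  have h2 : Real.exp (-(p * x)) * Real.exp (p * x) = 1 := by
    rw [← Real.exp_add]
    simp
  unfold F
  rw [abs_mul, abs_of_nonneg (by positivity : 0 ≤ Real.exp (-(p * x)) ^ k * Real.exp (-(c * Real.exp (-(p * x)))))]
  have h3 : Real.exp (-(p * x)) ^ k * Real.exp (-(c * Real.exp (-(p * x)))) =
      Real.exp (-(p * x)) ^ (k + 2) * Real.exp (-(c * Real.exp (-(p * x)))) * Real.exp (p * x) ^ 2 := by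
    calc _ = Real.exp (-(p * x)) ^ k * Real.exp (-(c * Real.exp (-(p * x)))) *
          (Real.exp (-(p * x)) * Real.exp (p * x)) ^ 2 := by rw [h2]; ring
      _ = _ := by ring
  rw [h3]
  calc _ ≤ ((k + 2).factorial : ℝ) / c ^ (k + 2) * Real.exp (p * x) ^ 2 * K :=
        mul_le_mul (mul_le_mul_of_nonneg_right h1 (by positivity)) (hK x) (abs_nonneg _) (by positivity)
    _ = _ := by ring

lemma F_zero (p c : ℝ) {r : ℝ} (k i : ℕ) {x : ℝ} (hx : r < x) : F p c r k i x = 0 := by
  unfold F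
  rw [ch_zero r i hx, mul_zero]

lemma F_bdd {p c : ℝ} (hp : 0 < p) (hc : 0 < c) (r : ℝ) (k i : ℕ) : ∃ K : ℝ, 0 ≤ K ∧ ∀ x,
    |F p c r k i x| ≤ K := by
  obtain ⟨K, hK0, hK⟩ := F_le (p := p) hc r k i
  refine ⟨K * Real.exp (p * r) ^ 2, by positivity, fun x => ?_⟩
  by_cases hx : r < x
  · rw [F_zero p c k i hx, abs_zero]
    positivity
  · refine (hK x).trans (mul_le_mul_of_nonneg_left ?_ hK0)
    gcongr
    linarith

/-- `log (2 cosh t)` -/
def gg (t : ℝ) : ℝ := Real.log (2 * Real.cosh t)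

lemma hasDerivAt_gg (t : ℝ) : HasDerivAt gg (Real.tanh t) t := by
  have h0 := Real.cosh_pos t
  have h1 := ((Real.hasDerivAt_cosh t).const_mul 2).log (by positivity)
  refine h1.congr_deriv ?_
  rw [Real.tanh_eq_sinh_div_cosh]
  field_simp

lemma abs_le_gg (t : ℝ) : |t| ≤ gg t := by
  unfold gg
  rw [Real.le_log_iff_exp_le (by have := Real.cosh_pos t; positivity)]
  have := NUP1.cosh_ge t
  linarith

lemma gg_le (t : ℝ) : gg t ≤ |t| + 1 := by
  unfold gg
  rw [Real.log_le_iff_le_exp (by have := Real.cosh_pos t; positivity), Real.exp_add]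
  have h1 := NUP1.cosh_le_exp t
  have h2 : (2 : ℝ) ≤ Real.exp 1 := by
    have := Real.add_one_le_exp (1 : ℝ)
    linarith
  have h3 := Real.exp_pos |t|
  nlinarith

lemma tanh_abs_le (t : ℝ) : |Real.tanh t| ≤ 1 := by
  rw [abs_le]
  exact ⟨(Real.neg_one_lt_tanh t).le, (Real.tanh_lt_one t).le⟩

lemma hasDerivAt_tanh (t : ℝ) : HasDerivAt Real.tanh (1 - Real.tanh t ^ 2) t := by
  have h0 := (Real.cosh_pos t).ne'
  have h1 := (Real.hasDerivAt_sinh t).div (Real.hasDerivAt_cosh t) h0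
  have e : Real.tanh = fun t => Real.sinh t / Real.cosh t := funext fun t => Real.tanh_eq_sinh_div_cosh t
  rw [e]
  refine h1.congr_deriv ?_
  field_simp

/-- the composed family -/
def G (p c r a : ℝ) (k i n : ℕ) (t : ℝ) : ℝ := F p c r k i (gg t - a) * Real.tanh t ^ n

lemma hasDerivAt_G (p c r a : ℝ) (k i n : ℕ) (t : ℝ) : HasDerivAt (G p c r a k i n)
    (-(p * k) * G p c r a k i (n + 1) t + (p * c * G p c r a (k + 1) i (n + 1) t + (G p c r a k (i + 1) (n + 1) t +
      ((n : ℝ) * G p c r a k i (n - 1) t + (-(n : ℝ)) * G p c r a k i (n - 1 + 2) t)))) t := by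
  have h1 : HasDerivAt (fun t => gg t - a) (Real.tanh t) t := (hasDerivAt_gg t).sub_const a
  have h2 := HasDerivAt.comp t (hasDerivAt_F p c r k i (gg t - a)) h1
  have h3 := h2.mul ((hasDerivAt_tanh t).fun_pow n)
  refine h3.congr_deriv ?_
  unfold G
  simp only [Function.comp_apply]
  ring

lemma G_bd {p c : ℝ} (hp : 0 < p) (hc : 0 < c) (r : ℝ) (j : ℕ) : ∀ k i n : ℕ, ∃ C : ℝ, ∀ a : ℝ,
    Bd C j (G p c r a k i n) := by
  induction j with
  | zero =>
    intro k i n
    obtain ⟨K, hK0, hK⟩ := F_bdd hp hc r k i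
    refine ⟨K, fun a => ⟨continuous_iff_continuousAt.2 fun t => (hasDerivAt_G p c r a k i n t).continuousAt,
      fun t => ?_⟩⟩
    unfold G
    rw [abs_mul, abs_pow]
    calc _ ≤ K * 1 := mul_le_mul (hK _) (pow_le_one₀ (abs_nonneg _) (tanh_abs_le t)) (by positivity) hK0
      _ = K := mul_one K
  | succ j ih =>
    intro k i n
    obtain ⟨K, hK0, hK⟩ := F_bdd hp hc r k i
    obtain ⟨C1, h1⟩ := ih k i (n + 1)
    obtain ⟨C2, h2⟩ := ih (k + 1) i (n + 1)
    obtain ⟨C3, h3⟩ := ih k (i + 1) (n + 1)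
    obtain ⟨C4, h4⟩ := ih k i (n - 1)
    obtain ⟨C5, h5⟩ := ih k i (n - 1 + 2)
    refine ⟨max K (|-(p * k)| * C1 + (|p * c| * C2 + (C3 + (|(n : ℝ)| * C4 + |-(n : ℝ)| * C5)))),
      fun a => ⟨fun t => ?_, _, hasDerivAt_G p c r a k i n, ?_⟩⟩
    · refine le_trans ?_ (le_max_left _ _)
      unfold G
      rw [abs_mul, abs_pow]
      calc _ ≤ K * 1 := mul_le_mul (hK _) (pow_le_one₀ (abs_nonneg _) (tanh_abs_le t)) (by positivity) hK0
        _ = K := mul_one K
    · exact ((((h1 a).smul _).add (((h2 a).smul _).add ((h3 a).add (((h4 a).smul _).add ((h5 a).smul _)))))).mono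
        (le_max_right _ _)

/-- decay of the family in terms of the height -/
lemma G_le {p c : ℝ} (hp : 0 < p) (hc : 0 < c) {r : ℝ} (k i n : ℕ) : ∃ K : ℝ, 0 ≤ K ∧ ∀ a t : ℝ,
    |G p c r a k i n t| ≤ K * Real.exp (p * (|t| - a)) ^ 2 ∧ (a + r < |t| → G p c r a k i n t = 0) := by
  obtain ⟨K, hK0, hK⟩ := F_le (p := p) hc r k i
  refine ⟨K * Real.exp p ^ 2, by positivity, fun a t => ⟨?_, fun ht => ?_⟩⟩
  · unfold G
    rw [abs_mul, abs_pow]
    have h1 : |Real.tanh t| ^ n ≤ 1 := pow_le_one₀ (abs_nonneg _) (tanh_abs_le t)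
    calc _ ≤ (K * Real.exp (p * (gg t - a)) ^ 2) * 1 := mul_le_mul (hK _) h1 (by positivity) (by positivity)
      _ ≤ K * Real.exp (p * (|t| - a) + p) ^ 2 := by
        rw [mul_one]
        gcongr
        have := gg_le t
        nlinarith
      _ = _ := by
        rw [Real.exp_add]
        ring
  · unfold G
    rw [F_zero p c k i (by have := abs_le_gg t; linarith), zero_mul]

/-! ### the dominating function -/

/-- sum of the two exponentials at the edges -/
def dom (p A : ℝ) (t : ℝ) : ℝ := Real.exp (-(p * |t - A|)) + Real.exp (-(p * |t + A|))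

lemma int_exp_abs {p : ℝ} (hp : 0 < p) :
    Integrable (fun t : ℝ => Real.exp (-(p * |t|))) ∧ ∫ t : ℝ, Real.exp (-(p * |t|)) = 2 / p := by
  have h1 : IntegrableOn (fun t : ℝ => Real.exp (-(p * |t|))) (Ioi 0) := by
    refine (integrableOn_exp_mul_Ioi (neg_neg_of_pos hp) 0).congr_fun (fun t ht => ?_) measurableSet_Ioi
    have : (0 : ℝ) < t := ht
    simp only
    rw [abs_of_pos this, neg_mul]
  have hi : Integrable (fun t : ℝ => Real.exp (-(p * |t|))) := by
    have h2 : IntegrableOn (fun t : ℝ => Real.exp (-(p * |t|))) (Iic 0) := by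
      refine (integrableOn_exp_mul_Iic hp 0).congr_fun (fun t ht => ?_) measurableSet_Iic
      have : t ≤ (0 : ℝ) := ht
      simp only
      rw [abs_of_nonpos this, mul_neg, neg_neg]
    have h3 := h2.union h1
    rwa [Iic_union_Ioi, integrableOn_univ] at h3
  refine ⟨hi, ?_⟩
  have h4 := integral_comp_abs (f := fun x : ℝ => Real.exp (-(p * x)))
  rw [h4]
  have h5 := integral_exp_mul_Ioi (neg_neg_of_pos hp) 0
  have h6 : ∫ x in Ioi (0 : ℝ), Real.exp (-(p * x)) = 1 / p := by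
    have e : (fun x : ℝ => Real.exp (-(p * x))) = fun x => Real.exp (-p * x) := by
      funext x
      rw [neg_mul]
    rw [e, h5]
    simp
  rw [h6]
  ring

lemma dom_int {p : ℝ} (hp : 0 < p) (A : ℝ) : Integrable (dom p A) ∧ ∫ t, dom p A t = 4 / p := by
  obtain ⟨h1, h2⟩ := int_exp_abs hp
  have e1 : Integrable (fun t : ℝ => Real.exp (-(p * |t - A|))) := h1.comp_sub_right A
  have e2 : Integrable (fun t : ℝ => Real.exp (-(p * |t + A|))) := h1.comp_add_right A
  refine ⟨e1.add e2, ?_⟩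
  unfold dom
  rw [integral_add e1 e2, integral_sub_right_eq_self (fun t : ℝ => Real.exp (-(p * |t|))) A,
    integral_add_right_eq_self (fun t : ℝ => Real.exp (-(p * |t|))) A, h2]
  ring

lemma le_dom (p A t : ℝ) (ht : |t| ≤ A) : Real.exp (p * (|t| - A)) ≤ dom p A t := by
  unfold dom
  rcases le_total 0 t with h | h
  · rw [abs_of_nonneg h] at ht ⊢
    rw [abs_of_nonpos (by linarith : t - A ≤ 0)]
    have := Real.exp_pos (-(p * |t + A|))
    have e : p * (t - A) = -(p * -(t - A)) := by ring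
    rw [e]
    linarith
  · rw [abs_of_nonpos h] at ht ⊢
    rw [abs_of_nonneg (by linarith : 0 ≤ t + A)]
    have := Real.exp_pos (-(p * |t - A|))
    have e : p * (-t - A) = -(p * (t + A)) := by ring
    rw [e]
    linarith

/-- the family against the dominating function -/
lemma G_dom {p c : ℝ} (hp : 0 < p) (hc : 0 < c) (r : ℝ) (k i n : ℕ) : ∃ K : ℝ, 0 ≤ K ∧ ∀ a t : ℝ,
    |G p c r a k i n t| ≤ K ∧ |G p c r a k i n t| ≤ K * dom p (a + r) t ∧
      Real.exp (-(p * (|t| - a))) * |G p c r a k i n t| ≤ K * dom p (a + r) t := by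
  obtain ⟨K, hK0, hK⟩ := G_le (r := r) hp hc k i n
  have hr1 := Real.exp_pos (p * r)
  refine ⟨K * Real.exp (p * r) + K * Real.exp (p * r) ^ 2, by positivity, fun a t => ?_⟩
  obtain ⟨h1, h2⟩ := hK a t
  have hd : 0 < dom p (a + r) t := by
    unfold dom
    positivity
  by_cases ht : a + r < |t|
  · rw [h2 ht, abs_zero, mul_zero]
    exact ⟨by positivity, by positivity, by positivity⟩
  · push Not at ht
    have h3 : Real.exp (p * (|t| - a)) = Real.exp (p * r) * Real.exp (p * (|t| - (a + r))) := by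
      rw [← Real.exp_add]
      ring_nf
    have h4 : Real.exp (p * (|t| - (a + r))) ≤ 1 := by
      rw [Real.exp_le_one_iff]
      nlinarith
    have h5 := le_dom p (a + r) t ht
    have h6 := Real.exp_pos (p * (|t| - (a + r)))
    rw [h3] at h1
    have h7 : K * (Real.exp (p * r) * Real.exp (p * (|t| - (a + r)))) ^ 2 ≤
        K * Real.exp (p * r) ^ 2 * Real.exp (p * (|t| - (a + r))) := by
      rw [mul_pow, ← mul_assoc]
      apply mul_le_mul_of_nonneg_left _ (by positivity)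
      nlinarith
    have h8 : K * Real.exp (p * r) ^ 2 * Real.exp (p * (|t| - (a + r))) ≤ K * Real.exp (p * r) ^ 2 * 1 :=
      mul_le_mul_of_nonneg_left h4 (by positivity)
    have h9 : K * Real.exp (p * r) ^ 2 * Real.exp (p * (|t| - (a + r))) ≤
        K * Real.exp (p * r) ^ 2 * dom p (a + r) t :=
      mul_le_mul_of_nonneg_left h5 (by positivity)
    refine ⟨?_, ?_, ?_⟩
    · have : 0 ≤ K * Real.exp (p * r) := by positivity
      linarith
    · have : 0 ≤ K * Real.exp (p * r) * dom p (a + r) t := by positivity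
      rw [add_mul]
      linarith
    · have e : Real.exp (-(p * (|t| - a))) * (Real.exp (p * r) * Real.exp (p * (|t| - (a + r)))) = 1 := by
        rw [← h3, ← Real.exp_add]
        simp
      calc _ ≤ Real.exp (-(p * (|t| - a))) * (K * (Real.exp (p * r) * Real.exp (p * (|t| - (a + r)))) ^ 2) :=
            mul_le_mul_of_nonneg_left h1 (Real.exp_pos _).le
        _ = K * (Real.exp (p * r) * Real.exp (p * (|t| - (a + r)))) *
            (Real.exp (-(p * (|t| - a))) * (Real.exp (p * r) * Real.exp (p * (|t| - (a + r))))) := by ring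
        _ = K * Real.exp (p * r) * Real.exp (p * (|t| - (a + r))) := by rw [e]; ring
        _ ≤ K * Real.exp (p * r) * dom p (a + r) t := mul_le_mul_of_nonneg_left h5 (by positivity)
        _ ≤ _ := by
            rw [add_mul]
            have : 0 ≤ K * Real.exp (p * r) ^ 2 * dom p (a + r) t := by positivity
            linarith

lemma chi_nonneg (r x : ℝ) : 0 ≤ chi r x := Real.smoothTransition.nonneg _

lemma G_nonneg (p c r a t : ℝ) : 0 ≤ G p c r a 0 0 0 t := by
  unfold G F ch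
  rw [iteratedDeriv_zero, pow_zero, pow_zero, one_mul, mul_one]
  exact mul_nonneg (Real.exp_pos _).le (chi_nonneg _ _)

lemma G_eq {p c r a t : ℝ} (ht : gg t - a ≤ r - 1) :
    G p c r a 0 0 0 t = Real.exp (-(c * Real.exp (-(p * (gg t - a))))) := by
  unfold G F ch chi
  rw [iteratedDeriv_zero, pow_zero, pow_zero, one_mul, mul_one, Real.smoothTransition.one_of_one_le (by linarith),
    mul_one]

lemma G_cont {p c r a : ℝ} (k i n : ℕ) : Continuous (G p c r a k i n) :=
  continuous_iff_continuousAt.2 fun t => (hasDerivAt_G p c r a k i n t).continuousAt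

lemma list_sum (b : ℝ) (M : ℕ) (u : ℂ) :
    ((List.replicate M (0 : ℂ)).map fun x => Real.exp (-(2 * b) * |(u - x).im|)).sum =
      M * Real.exp (-(2 * b) * |u.im|) := by
  rw [List.map_replicate, List.sum_replicate, sub_zero, nsmul_eq_mul]

/-- derivative of the majorant -/
def B1' (p c r a : ℝ) (t : ℝ) : ℝ := p * c * G p c r a 1 0 1 t + G p c r a 0 1 1 t

lemma hasDerivAt_B1 (p c r a t : ℝ) : HasDerivAt (G p c r a 0 0 0) (B1' p c r a t) t := by
  refine (hasDerivAt_G p c r a 0 0 0 t).congr_deriv ?_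
  unfold B1'
  push_cast
  ring

end PhiB

open PhiB

/-- **the smooth majorant of the cutoff factor** -/
theorem exists_B1 {b s : ℝ} (h : NUP1.Adm b s) (hb : 2 * b ≤ 8 / 3) : ∃ C : ℝ, 1 ≤ C ∧ ∀ M : ℕ, 1 ≤ M →
    ∃ B B' : ℝ → ℝ, ContDiff ℝ 4 B ∧ (∀ t, HasDerivAt B (B' t) t) ∧ (∀ t, 0 ≤ B t) ∧ (∀ t, B t ≤ C) ∧
      (∀ j ≤ 4, ∀ t, |iteratedDeriv j B t| ≤ C) ∧ (∀ t, Real.log M / (2 * b) + C ≤ |t| → B t = 0) ∧
      Integrable (fun t => M * NUMF.P t * B t) ∧ (∫ t, M * NUMF.P t * B t) ≤ C ∧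
      Integrable (fun t => B t ^ 2 + B' t ^ 2) ∧ (∫ t, B t ^ 2 + B' t ^ 2) ≤ C ∧
      ∀ u : ℂ, |u.re + NUP1.l / 2| ≤ s → ‖NUP1.phi b (List.replicate M 0) u‖ ≤ Real.exp (B u.im) ∧
        ‖NUP1.phi b (List.replicate M 0) u‖ ≤ C * M * Real.exp (-(2 * b) * |u.im|) := by
  have hk := h.kap_pos
  have hcl := h.cl_pos
  have hb0 := h.pos
  obtain ⟨p, hp⟩ : ∃ p : ℝ, p = 2 * b := ⟨_, rfl⟩
  have hp0 : 0 < p := by rw [hp]; linarith
  obtain ⟨c, hc⟩ : ∃ c : ℝ, c = NUP1.cl b * NUP1.kap b s / 2 := ⟨_, rfl⟩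
  have hc0 : 0 < c := by rw [hc]; positivity
  obtain ⟨C1, hC1⟩ : ∃ C1 : ℝ, C1 = 4 / NUP1.kap b s := ⟨_, rfl⟩
  have hC10 : 0 < C1 := by rw [hC1]; positivity
  obtain ⟨x1, hx1⟩ : ∃ x1 : ℝ, x1 = max 0 (Real.log C1 / p) := ⟨_, rfl⟩
  have hx10 : 0 ≤ x1 := by rw [hx1]; exact le_max_left _ _
  have hx11 : C1 * Real.exp (-(p * x1)) ≤ 1 := by
    have h1 : Real.log C1 ≤ p * x1 := by
      have h2 : Real.log C1 / p ≤ x1 := by rw [hx1]; exact le_max_right _ _
      rw [div_le_iff₀ hp0] at h2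
      linarith
    calc C1 * Real.exp (-(p * x1)) = Real.exp (Real.log C1) * Real.exp (-(p * x1)) := by rw [Real.exp_log hC10]
      _ = Real.exp (Real.log C1 - p * x1) := by rw [← Real.exp_add]; rfl
      _ ≤ 1 := by rw [Real.exp_le_one_iff]; linarith
  obtain ⟨r, hr⟩ : ∃ r : ℝ, r = x1 + 2 := ⟨_, rfl⟩
  obtain ⟨C4, hC4⟩ := G_bd hp0 hc0 r 4 0 0 0
  obtain ⟨K0, hK0, hG0⟩ := G_dom hp0 hc0 r 0 0 0
  obtain ⟨K1, hK1, hG1⟩ := G_dom hp0 hc0 r 1 0 1
  obtain ⟨K2, hK2, hG2⟩ := G_dom hp0 hc0 r 0 1 1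
  obtain ⟨q, hq⟩ : ∃ q : ℝ, q = 32 / (3 * √3 * Real.pi) := ⟨_, rfl⟩
  have hq0 : 0 < q := by
    rw [hq]
    have := NUMF.sq3_pos
    have := Real.pi_pos
    positivity
  obtain ⟨K3, hK3⟩ : ∃ K3 : ℝ, K3 = p * c * K1 + K2 := ⟨_, rfl⟩
  have hK30 : 0 ≤ K3 := by rw [hK3]; positivity
  have hC40 : 0 ≤ C4 := (hC4 0).nonneg
  refine ⟨1 + C4 + r + 1 + C1 + q * K0 * (4 / p) + (K0 * K0 + K3 * K3) * (4 / p), ?_, ?_⟩
  · have : 0 ≤ q * K0 * (4 / p) + (K0 * K0 + K3 * K3) * (4 / p) := by positivity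
    rw [hr]
    linarith
  intro M hM
  have hM1 : (1 : ℝ) ≤ M := by exact_mod_cast hM
  have hM0 : (0 : ℝ) < M := by linarith
  obtain ⟨a, ha⟩ : ∃ a : ℝ, a = Real.log M / p := ⟨_, rfl⟩
  have ha0 : 0 ≤ a := by
    rw [ha]
    exact div_nonneg (Real.log_nonneg hM1) hp0.le
  have hMa : (M : ℝ) = Real.exp (p * a) := by
    rw [ha, mul_div_cancel₀ _ hp0.ne', Real.exp_log hM0]
  have hq1 : 0 ≤ q * K0 * (4 / p) := by positivity
  have hq2 : 0 ≤ (K0 * K0 + K3 * K3) * (4 / p) := by positivity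
  obtain ⟨hdi, hdv⟩ := dom_int hp0 (a + r)
  have hd0 : ∀ t, 0 < dom p (a + r) t := fun t => by
    unfold dom
    positivity
  have hB' : ∀ t, |B1' p c r a t| ≤ K3 ∧ |B1' p c r a t| ≤ K3 * dom p (a + r) t := by
    intro t
    obtain ⟨g1, g2, _⟩ := hG1 a t
    obtain ⟨k1, k2, _⟩ := hG2 a t
    have hpc : 0 ≤ p * c := by positivity
    have h0 : |B1' p c r a t| ≤ p * c * |G p c r a 1 0 1 t| + |G p c r a 0 1 1 t| := by
      unfold B1'
      refine (abs_add_le _ _).trans (add_le_add ?_ le_rfl)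
      rw [abs_mul, abs_of_nonneg hpc]
    constructor
    · refine h0.trans ?_
      rw [hK3]
      exact add_le_add (mul_le_mul_of_nonneg_left g1 hpc) k1
    · refine h0.trans ?_
      rw [hK3, add_mul, mul_assoc (p * c) K1]
      exact add_le_add (mul_le_mul_of_nonneg_left g2 hpc) k2
  have hBc : Continuous (G p c r a 0 0 0) := G_cont 0 0 0
  have hB'c : Continuous (B1' p c r a) := by
    unfold B1'
    exact (continuous_const.mul (G_cont 1 0 1)).add (G_cont 0 1 1)
  -- the density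
  have hP : ∀ t, |M * NUMF.P t * G p c r a 0 0 0 t| ≤ q * K0 * dom p (a + r) t := by
    intro t
    obtain ⟨_, _, g3⟩ := hG0 a t
    have h1 := NUMF.P_le t
    rw [← hq] at h1
    have h2 : M * NUMF.P t ≤ q * Real.exp (-(p * (|t| - a))) := by
      calc M * NUMF.P t ≤ Real.exp (p * a) * (q * Real.exp (-(8 / 3) * |t|)) := by
            rw [hMa]
            exact mul_le_mul_of_nonneg_left h1 (Real.exp_pos _).le
        _ ≤ Real.exp (p * a) * (q * Real.exp (-p * |t|)) := by
            gcongr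
            rw [hp]
            exact hb
        _ = q * Real.exp (-(p * (|t| - a))) := by
            rw [show -(p * (|t| - a)) = p * a + -p * |t| by ring, Real.exp_add]
            ring
    rw [abs_mul, abs_of_nonneg (mul_nonneg hM0.le (NUMF.P_pos t).le)]
    calc _ ≤ q * Real.exp (-(p * (|t| - a))) * |G p c r a 0 0 0 t| :=
          mul_le_mul_of_nonneg_right h2 (abs_nonneg _)
      _ = q * (Real.exp (-(p * (|t| - a))) * |G p c r a 0 0 0 t|) := by ring
      _ ≤ q * (K0 * dom p (a + r) t) := mul_le_mul_of_nonneg_left g3 hq0.le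
      _ = _ := by ring
  have hPi : Integrable (fun t => M * NUMF.P t * G p c r a 0 0 0 t) := by
    refine Integrable.mono' (hdi.const_mul (q * K0)) ?_ (Eventually.of_forall fun t => ?_)
    · exact ((continuous_const.mul NUMF.P_cont).mul hBc).aestronglyMeasurable
    · rw [Real.norm_eq_abs]
      exact hP t
  have hS : ∀ t, G p c r a 0 0 0 t ^ 2 + B1' p c r a t ^ 2 ≤ (K0 * K0 + K3 * K3) * dom p (a + r) t := by
    intro t
    obtain ⟨g1, g2, _⟩ := hG0 a t
    obtain ⟨k1, k2⟩ := hB' t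
    have e1 : G p c r a 0 0 0 t ^ 2 ≤ K0 * (K0 * dom p (a + r) t) := by
      rw [← sq_abs, sq]
      exact mul_le_mul g1 g2 (abs_nonneg _) hK0
    have e2 : B1' p c r a t ^ 2 ≤ K3 * (K3 * dom p (a + r) t) := by
      rw [← sq_abs, sq]
      exact mul_le_mul k1 k2 (abs_nonneg _) hK30
    linarith
  have hSi : Integrable (fun t => G p c r a 0 0 0 t ^ 2 + B1' p c r a t ^ 2) := by
    refine Integrable.mono' (hdi.const_mul (K0 * K0 + K3 * K3)) ?_ (Eventually.of_forall fun t => ?_)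
    · exact ((hBc.pow 2).add (hB'c.pow 2)).aestronglyMeasurable
    · rw [Real.norm_eq_abs, abs_of_nonneg (by positivity)]
      exact hS t
  refine ⟨G p c r a 0 0 0, B1' p c r a, ?_, hasDerivAt_B1 p c r a, G_nonneg p c r a, ?_, ?_, ?_, hPi, ?_, hSi, ?_, ?_⟩
  · exact_mod_cast (hC4 a).contDiff
  · intro t
    refine (le_abs_self _).trans (((hC4 a).bdd t).trans ?_)
    rw [hr]
    linarith
  · intro j hj t
    refine ((hC4 a).iter j hj t).trans ?_
    rw [hr]
    linarith
  · intro t ht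
    rw [← hp, ← ha] at ht
    obtain ⟨K, hK, hK'⟩ := G_le (r := r) hp0 hc0 0 0 0
    refine (hK' a t).2 ?_
    linarith
  · calc ∫ t, M * NUMF.P t * G p c r a 0 0 0 t ≤ ∫ t, q * K0 * dom p (a + r) t := by
          refine integral_mono hPi (hdi.const_mul _) fun t => (le_abs_self _).trans (hP t)
      _ = q * K0 * (4 / p) := by rw [integral_const_mul, hdv]
      _ ≤ _ := by
          rw [hr]
          linarith
  · calc ∫ t, G p c r a 0 0 0 t ^ 2 + B1' p c r a t ^ 2 ≤ ∫ t, (K0 * K0 + K3 * K3) * dom p (a + r) t := by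
          refine integral_mono hSi (hdi.const_mul _) fun t => hS t
      _ = (K0 * K0 + K3 * K3) * (4 / p) := by rw [integral_const_mul, hdv]
      _ ≤ _ := by
          rw [hr]
          linarith
  · intro u hu
    have hu' : ∀ x ∈ List.replicate M (0 : ℂ), |(u - x).re + NUP1.l / 2| ≤ s := by
      intro x hx
      rw [List.eq_of_mem_replicate hx, sub_zero]
      exact hu
    have h1 := NUP1.norm_phi_sub_one h hu'
    have h2 := NUP1.norm_phi_le h hu'
    rw [list_sum, ← hc, ← hp] at h1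
    rw [list_sum, ← hC1, ← hp] at h2
    have hMe : M * Real.exp (-p * |u.im|) = Real.exp (-(p * (|u.im| - a))) := by
      rw [hMa, ← Real.exp_add]
      ring_nf
    constructor
    · by_cases hc1 : |u.im| - a ≤ x1
      · have hg1 := gg_le u.im
        have hg2 := abs_le_gg u.im
        rw [G_eq (by rw [hr]; linarith)]
        have h3 : ‖NUP1.phi b (List.replicate M 0) u‖ ≤
            1 + Real.exp (-(c * Real.exp (-(p * (|u.im| - a))))) := by
          rw [hMe] at h1
          have h4 := norm_le_norm_add_norm_sub' (NUP1.phi b (List.replicate M 0) u) 1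
          rw [norm_one] at h4
          linarith
        have h5 : Real.exp (-(c * Real.exp (-(p * (|u.im| - a))))) ≤
            Real.exp (-(c * Real.exp (-(p * (gg u.im - a))))) := by
          gcongr
        have h6 := Real.add_one_le_exp (Real.exp (-(c * Real.exp (-(p * (gg u.im - a))))))
        linarith
      · push Not at hc1
        have h3 : ‖NUP1.phi b (List.replicate M 0) u‖ ≤ 1 := by
          refine h2.trans ?_
          rw [hMe]
          refine le_trans ?_ hx11
          gcongr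
        exact h3.trans (Real.one_le_exp (G_nonneg _ _ _ _ _))
    · refine h2.trans ?_
      rw [← hp, mul_assoc]
      refine mul_le_mul_of_nonneg_right ?_ (by positivity)
      rw [hr]
      linarith

open scoped ENNReal in
/-- **the shell decomposition with the cutoff factor**: `U t` is the position of the quantum with parameter `t`
(height `t`); windows `[-(T0 + j), T0 + j]` -/
theorem shell_phi {ι Ω : Type*} [Fintype ι] [MeasurableSpace Ω] {μ : Measure Ω} (x : ι → Ω → ℝ)
    (hx : ∀ i, Measurable (x i)) {W : Ω → ℝ≥0∞} (hW : Measurable W) {b C T0 : ℝ} (hb : 0 < b) (hC : 0 ≤ C) {M : ℕ}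
    {B : ℝ → ℝ} (hB : Measurable B) (hB0 : ∀ t, 0 ≤ B t) {U : ℝ → ℂ}
    (h1 : ∀ t, ‖NUP1.phi b (List.replicate M 0) (U t)‖ ≤ Real.exp (B t))
    (h2 : ∀ t, ‖NUP1.phi b (List.replicate M 0) (U t)‖ ≤ C * M * Real.exp (-(2 * b) * |t|)) :
    ∫⁻ t, W t * ∏ i, ENNReal.ofReal ‖NUP1.phi b (List.replicate M 0) (U (x i t))‖ ∂μ ≤
      ∫⁻ t in win x (Icc (-T0) T0), W t * ∏ i, ENNReal.ofReal (Real.exp (B (x i t))) ∂μ +
        ∑' j : ℕ, ENNReal.ofReal (C * M * Real.exp (-(2 * b) * (T0 + j))) *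
          ∫⁻ t in win x (Icc (-(T0 + (j + 1))) (T0 + (j + 1))),
            W t * ∏ i, ENNReal.ofReal (Real.exp (B (x i t))) ∂μ := by
  have hK : Monotone (fun j : ℕ => Icc (-(T0 + (j : ℝ))) (T0 + j)) := by
    intro i j hij
    have : (i : ℝ) ≤ j := by exact_mod_cast hij
    exact Icc_subset_Icc (by linarith) (by linarith)
  have hU : ⋃ j : ℕ, Icc (-(T0 + (j : ℝ))) (T0 + j) = univ := by
    refine eq_univ_of_forall fun t => mem_iUnion.2 ?_
    obtain ⟨j, hj⟩ := exists_nat_ge (|t| - T0)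
    refine ⟨j, ?_⟩
    rw [mem_Icc, ← abs_le]
    linarith
  have key := shell (μ := μ) x hx hW (c := fun t => ENNReal.ofReal ‖NUP1.phi b (List.replicate M 0) (U t)‖)
    (b := fun t => ENNReal.ofReal (Real.exp (B t))) (by fun_prop) hK (fun j => measurableSet_Icc) hU
    (fun t => ENNReal.ofReal_le_ofReal (h1 t))
    (ε := fun j => ENNReal.ofReal (C * M * Real.exp (-(2 * b) * (T0 + ((j : ℝ) - 1))))) (by
      intro j t ht
      have ht' : T0 + j < |t| := by
        by_contra hcon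
        push Not at hcon
        exact ht (abs_le.1 hcon)
      have h3 : ‖NUP1.phi b (List.replicate M 0) (U t)‖ ≤
          C * M * Real.exp (-(2 * b) * (T0 + (((j + 1 : ℕ) : ℝ) - 1))) := by
        refine (h2 t).trans (mul_le_mul_of_nonneg_left ?_ (by positivity))
        rw [Real.exp_le_exp]
        push_cast
        nlinarith
      calc ENNReal.ofReal ‖NUP1.phi b (List.replicate M 0) (U t)‖
          ≤ ENNReal.ofReal (C * M * Real.exp (-(2 * b) * (T0 + (((j + 1 : ℕ) : ℝ) - 1)))) * 1 := by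
            rw [mul_one]
            exact ENNReal.ofReal_le_ofReal h3
        _ ≤ _ := by
            gcongr
            rw [← ENNReal.ofReal_one]
            exact ENNReal.ofReal_le_ofReal (Real.one_le_exp (hB0 t)))
  refine key.trans (le_of_eq ?_)
  simp only [Nat.cast_zero, add_zero, Nat.cast_add, Nat.cast_one, add_sub_cancel_right]

end

end NU42
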