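import Pool.Agent.NU42.Defs
import Pool.Agent.NUKer.Glob

/-!
# The splitting of the positive gas into two one component gases

`WO_tau`: `WO exp (1/2 ∑ F_l²) ≤ exp (const) (∏ ω ∏ a e^{lg*τ}) (∏ ω ∏ a' e^{-lg*τ}) exp (KE)`.
-/

set_option autoImplicit false

open MeasureTheory Set Filter Topology

namespace NU42

open NUKer NUE

noncomputable section

variable {p n : ℕ}

/-- smallness of the displacements on the whole line -/
structure Small (DX DX1 DY DY1 : ℝ → ℂ) : Prop where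
  sX : ∀ R, Sm R DX DX1
  sY : ∀ R, Sm R DY DY1
  sXY : ∀ R, Sm2 R DX DY
  jX : ∀ t, 1 + DX1 t ≠ 0
  jY : ∀ t, 1 + DY1 t ≠ 0

/-- small displacements with small derivatives -/
theorem exists_small : ∃ K : ℝ, 1 ≤ K ∧ ∀ (lam : ℝ) (DX DX1 DY DY1 : ℝ → ℂ),
    (∀ x, HasDerivAt DX (DX1 x) x) → Continuous DX1 → (∀ x, HasDerivAt DY (DY1 x) x) →
    Continuous DY1 → (∀ x, ‖DX x‖ ≤ lam) → (∀ x, ‖DX1 x‖ ≤ lam) → (∀ x, ‖DY x‖ ≤ lam) →
    (∀ x, ‖DY1 x‖ ≤ lam) → K * lam ≤ 1 → Small DX DX1 DY DY1 := by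
  obtain ⟨K1, hK1, H1⟩ := exists_glob_w
  obtain ⟨K2, hK2, H2⟩ := exists_glob_g
  refine ⟨K1 + K2, by linarith, fun lam DX DX1 DY DY1 h1 c1 h2 c2 b1 b2 b3 b4 hs => ?_⟩
  have hl : 0 ≤ lam := (norm_nonneg _).trans (b1 0)
  have hl2 : lam ≤ 1 / 2 := by nlinarith
  have m1 : 0 ≤ K1 * lam := by positivity
  have m2 : 0 ≤ K2 * lam := by positivity
  have e1 := H1 lam DX DX1 h1 c1 b1 b2 (by linarith)
  have e2 := H1 lam DY DY1 h2 c2 b3 b4 (by linarith)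
  have cX : Continuous DX := continuous_iff_continuousAt.2 fun x => (h1 x).continuousAt
  have cY : Continuous DY := continuous_iff_continuousAt.2 fun x => (h2 x).continuousAt
  have e3 := H2 lam DX DY cX cY b1 b3 (by linarith)
  exact ⟨e1.1, e2.1, e3.1, fun t => one_add_ne ((b2 t).trans hl2), fun t => one_add_ne ((b4 t).trans hl2)⟩

/-- decomposition without a window -/
theorem WO_eq' {DX DX1 DY DY1 : ℝ → ℂ} (hs : Small DX DX1 DY DY1) (a a' : ℝ → ℝ) (t : Fin p → ℝ)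
    (t' : Fin n → ℝ) : WO DX DX1 DY DY1 a a' t t' = pom t * pom t' * br2 NUMF.g t t' *
      Real.exp (KE DX DX1 DY DY1 t t') * ((∏ i, a (t i)) * ∏ j, a' (t' j)) := by
  obtain ⟨R, h1, h2⟩ : ∃ R : ℝ, (∀ i, |t i| ≤ R) ∧ ∀ i, |t' i| ≤ R := by
    refine ⟨∑ i, |t i| + ∑ i, |t' i|, fun i => ?_, fun i => ?_⟩
    · have := Finset.single_le_sum (f := fun i => |t i|) (fun i _ => abs_nonneg _) (Finset.mem_univ i)
      have h0 : 0 ≤ ∑ i, |t' i| := Finset.sum_nonneg fun i _ => abs_nonneg _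
      linarith
    · have := Finset.single_le_sum (f := fun i => |t' i|) (fun i _ => abs_nonneg _) (Finset.mem_univ i)
      have h0 : 0 ≤ ∑ i, |t i| := Finset.sum_nonneg fun i _ => abs_nonneg _
      linarith
  exact WO_eq (hs.sX R) (hs.sY R) (hs.sXY R) (fun t _ => hs.jX t) (fun t _ => hs.jY t) a a' t t' h1 h2

/-- the grid statistics of the total charge minus `τ` -/
def Fst (c : ℝ → ℝ) (h a : ℝ) (τ : ℝ → ℝ) (l : ℤ) (t : Fin p → ℝ) (t' : Fin n → ℝ) : ℝ :=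
  ∑ i, chi c h (t i - (a + l * h)) - ∑ j, chi c h (t' j - (a + l * h)) -
    ∫ x, τ x * chi c h (x - (a + l * h))

/-- constant of the splitting -/
def Ctau (p n : ℕ) (τ : ℝ → ℝ) : ℝ :=
  Real.log (NUMF.g 0) * (((p : ℝ) + n - ((p : ℝ) - n) ^ 2) / 2) - 1 / 2 * ∫ x, τ x * cv lgm τ x

/-- **splitting of the positive gas** -/
theorem WO_tau {c : ℝ → ℝ} (hc : Continuous c) (hce : ∀ k, c (-k) = c k) {K h : ℝ} (hh : 0 < h)
    (hK : K * h < Real.pi) (hcs : ∀ k, K < |k| → c k = 0) (hL : ∀ k, 0 < k → c k ^ 2 ≤ NUMF.Lh k)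
    (La : Finset ℤ) (a0 : ℝ) {τ : ℝ → ℝ} (hτ : Integrable τ) (hτ1 : Integrable fun x => τ x * x)
    (h0 : ∫ x, τ x = (p : ℝ) - n) {DX DX1 DY DY1 : ℝ → ℂ} (hs : Small DX DX1 DY DY1)
    {a a' : ℝ → ℝ} (ha : ∀ t, 0 ≤ a t) (ha' : ∀ t, 0 ≤ a' t) (t : Fin p → ℝ) (t' : Fin n → ℝ) :
    WO DX DX1 DY DY1 a a' t t' * Real.exp (1 / 2 * ∑ l ∈ La, Fst c h a0 τ l t t' ^ 2) ≤
      Real.exp (Ctau p n τ) * (pom t * ∏ i, (a (t i) * Real.exp (cv lgm τ (t i)))) *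
        (pom t' * ∏ j, (a' (t' j) * Real.exp (-cv lgm τ (t' j)))) *
        Real.exp (KE DX DX1 DY DY1 t t') := by
  have h1 := br2_tau hc hce hh hK hcs hL Lh_meas lgm_int lgm_eq lgm_le lgm_meas (Real.log (NUMF.g 0)) g_exp
    La a0 t t' hτ hτ1 h0
  rw [WO_eq' hs, Finset.prod_mul_distrib, Finset.prod_mul_distrib]
  have p1 := pom_nonneg t
  have p2 := pom_nonneg t'
  have p3 : 0 ≤ ∏ i, a (t i) := Finset.prod_nonneg fun _ _ => ha _
  have p4 : 0 ≤ ∏ i, a' (t' i) := Finset.prod_nonneg fun _ _ => ha' _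
  have p5 : 0 ≤ pom t * pom t' * Real.exp (KE DX DX1 DY DY1 t t') * ((∏ i, a (t i)) * ∏ j, a' (t' j)) := by
    positivity
  have h2 := mul_le_mul_of_nonneg_left h1 p5
  unfold Fst Ctau
  calc _ = pom t * pom t' * Real.exp (KE DX DX1 DY DY1 t t') * ((∏ i, a (t i)) * ∏ j, a' (t' j)) *
        (br2 NUMF.g t t' * Real.exp (1 / 2 * ∑ l ∈ La, (∑ i, chi c h (t i - (a0 + l * h)) -
        ∑ j, chi c h (t' j - (a0 + l * h)) - ∫ x, τ x * chi c h (x - (a0 + l * h))) ^ 2)) := by ring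
    _ ≤ _ := h2
    _ = _ := by ring

end

end NU42
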