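import Pool.Agent.NU42.Shell
import Pool.Agent.NU42.Defs

/-!
# Summation of the shells

`gas_shells`: window bounds `A e^{g j}` for the windows `|t| ≤ T0 + j` with the regular majorant
`e^B` of the cutoff give the bound of the integral over the whole line with the true cutoff.
-/

set_option autoImplicit false

open MeasureTheory Set Filter Topology
open scoped ENNReal

namespace NU42

noncomputable section

variable {p n : ℕ}

/-- the window of all configurations with every quantum in `[-R, R]` -/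
def Bw (p n : ℕ) (R : ℝ) : Set ((Fin p → ℝ) × (Fin n → ℝ)) :=
  (univ.pi fun _ => Icc (-R) R) ×ˢ (univ.pi fun _ => Icc (-R) R)

/-- coordinates of a configuration of the two species -/
def cc2 : Fin p ⊕ Fin n → (Fin p → ℝ) × (Fin n → ℝ) → ℝ :=
  Sum.elim (fun i x => x.1 i) fun j x => x.2 j

lemma cc2_meas (i : Fin p ⊕ Fin n) : Measurable (cc2 i : (Fin p → ℝ) × (Fin n → ℝ) → ℝ) := by
  rcases i with i | i
  · exact (measurable_pi_apply i).comp measurable_fst
  · exact (measurable_pi_apply i).comp measurable_snd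

lemma win_cc2 (R : ℝ) : win (cc2 : Fin p ⊕ Fin n → _) (Icc (-R) R) = Bw p n R := by
  ext x
  simp only [win, mem_setOf_eq, Sum.forall, cc2, Sum.elim_inl, Sum.elim_inr, Bw, mem_prod, Set.mem_pi,
    mem_univ, true_implies]

lemma mem_Bw {R : ℝ} {x : (Fin p → ℝ) × (Fin n → ℝ)} :
    x ∈ Bw p n R ↔ (∀ i, |x.1 i| ≤ R) ∧ ∀ i, |x.2 i| ≤ R := by
  simp only [Bw, mem_prod, Set.mem_pi, mem_univ, true_implies, mem_Icc, abs_le]

lemma Bw_meas (R : ℝ) : MeasurableSet (Bw p n R) :=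
  (MeasurableSet.univ_pi fun _ => measurableSet_Icc).prod (MeasurableSet.univ_pi fun _ => measurableSet_Icc)

/-- one body factors can be split off -/
lemma WO_mul (DX DX1 DY DY1 : ℝ → ℂ) (a a' c c' : ℝ → ℝ) (t : Fin p → ℝ) (t' : Fin n → ℝ) :
    WO DX DX1 DY DY1 (fun t => a t * c t) (fun t => a' t * c' t) t t' =
      WO DX DX1 DY DY1 a a' t t' * ((∏ i, c (t i)) * ∏ j, c' (t' j)) := by
  unfold WO ob
  simp only [← mul_assoc, Finset.prod_mul_distrib]
  ring

/-- the geometric series of the shells -/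
lemma tsum_shell {A D q g : ℝ} (hA : 0 ≤ A) (hD : 0 ≤ D) (hg : g < q) :
    ∑' j : ℕ, ENNReal.ofReal (D * Real.exp (-q * j)) * ENNReal.ofReal (A * Real.exp (g * (j + 1))) =
      ENNReal.ofReal (A * (D * Real.exp g / (1 - Real.exp (-(q - g))))) := by
  have hr1 : Real.exp (-(q - g)) < 1 := by
    rw [Real.exp_lt_one_iff]; linarith
  have hr0 := (Real.exp_pos (-(q - g))).le
  have e : ∀ j : ℕ, ENNReal.ofReal (D * Real.exp (-q * j)) * ENNReal.ofReal (A * Real.exp (g * (j + 1))) =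
      ENNReal.ofReal (A * (D * Real.exp g) * Real.exp (-(q - g)) ^ j) := by
    intro j
    rw [← ENNReal.ofReal_mul (by positivity)]
    congr 1
    rw [← Real.exp_nat_mul, show g * ((j : ℝ) + 1) = g + g * j by ring, Real.exp_add,
      show (j : ℝ) * -(q - g) = -q * j + g * j by ring, Real.exp_add]
    ring
  simp only [e]
  have hs := (hasSum_geometric_of_lt_one hr0 hr1).mul_left (A * (D * Real.exp g))
  rw [← ENNReal.ofReal_tsum_of_nonneg (fun j => by positivity) hs.summable, hs.tsum_eq]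
  congr 1
  rw [div_eq_mul_inv]
  ring

/-- **summation of the shells** -/
theorem gas_shells {W : (Fin p → ℝ) × (Fin n → ℝ) → ℝ≥0∞} (hW : Measurable W) {c B : ℝ → ℝ}
    (hB : Measurable B) {D q g A T0 : ℝ} (hD : 0 ≤ D) (hA : 0 ≤ A) (hq : 0 < q) (hg : g < q)
    (hB0 : ∀ t, 0 ≤ B t) (h1 : ∀ t, c t ≤ Real.exp (B t)) (h2 : ∀ t, c t ≤ D * Real.exp (-q * |t|))
    (hw : ∀ j : ℕ, ∫⁻ x in Bw p n (T0 + j), W x * ((∏ i, ENNReal.ofReal (Real.exp (B (x.1 i)))) *
      ∏ i, ENNReal.ofReal (Real.exp (B (x.2 i)))) ≤ ENNReal.ofReal (A * Real.exp (g * j))) :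
    ∫⁻ x, W x * ((∏ i, ENNReal.ofReal (c (x.1 i))) * ∏ i, ENNReal.ofReal (c (x.2 i))) ≤
      ENNReal.ofReal (A * (1 + D * Real.exp (-q * T0) * Real.exp g / (1 - Real.exp (-(q - g))))) := by
  have hr1 : Real.exp (-(q - g)) < 1 := by
    rw [Real.exp_lt_one_iff]; linarith
  have hK : Monotone (fun j : ℕ => Icc (-(T0 + (j : ℝ))) (T0 + j)) := by
    intro i j hij
    have : (i : ℝ) ≤ j := by exact_mod_cast hij
    exact Icc_subset_Icc (by linarith) (by linarith)
  have hU : ⋃ j : ℕ, Icc (-(T0 + (j : ℝ))) (T0 + j) = univ := by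
    refine eq_univ_of_forall fun t => mem_iUnion.2 ?_
    obtain ⟨j, hj⟩ := exists_nat_ge (|t| - T0)
    refine ⟨j, ?_⟩
    rw [mem_Icc, ← abs_le]
    linarith
  have key := shell (μ := (volume : Measure ((Fin p → ℝ) × (Fin n → ℝ)))) (cc2 (p := p) (n := n)) cc2_meas
    hW (c := fun t => ENNReal.ofReal (c t)) (b := fun t => ENNReal.ofReal (Real.exp (B t)))
    (by fun_prop) hK (fun j => measurableSet_Icc) hU (fun t => ENNReal.ofReal_le_ofReal (h1 t))
    (ε := fun j => ENNReal.ofReal (D * Real.exp (-q * (T0 + ((j : ℝ) - 1))))) (by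
      intro j t ht
      have ht' : T0 + j < |t| := by
        by_contra hcon
        push Not at hcon
        exact ht (abs_le.1 hcon)
      rw [← ENNReal.ofReal_mul (by positivity)]
      refine ENNReal.ofReal_le_ofReal ?_
      have h3 : D * Real.exp (-q * |t|) ≤ D * Real.exp (-q * (T0 + (((j + 1 : ℕ) : ℝ) - 1))) := by
        refine mul_le_mul_of_nonneg_left (Real.exp_le_exp.2 ?_) hD
        push_cast
        nlinarith
      have h4 : 1 ≤ Real.exp (B t) := Real.one_le_exp (hB0 t)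
      calc c t ≤ D * Real.exp (-q * |t|) := h2 t
        _ ≤ D * Real.exp (-q * (T0 + (((j + 1 : ℕ) : ℝ) - 1))) := h3
        _ ≤ _ := le_mul_of_one_le_right (by positivity) h4)
  simp only [Fintype.prod_sum_type, win_cc2] at key
  have e1 : ∀ x : (Fin p → ℝ) × (Fin n → ℝ), (∏ i : Fin p, ENNReal.ofReal (c (cc2 (n := n) (Sum.inl i) x))) *
      ∏ i : Fin n, ENNReal.ofReal (c (cc2 (p := p) (Sum.inr i) x)) =
      (∏ i, ENNReal.ofReal (c (x.1 i))) * ∏ i, ENNReal.ofReal (c (x.2 i)) := fun x => rfl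
  have e2 : ∀ x : (Fin p → ℝ) × (Fin n → ℝ),
      (∏ i : Fin p, ENNReal.ofReal (Real.exp (B (cc2 (n := n) (Sum.inl i) x)))) *
      ∏ i : Fin n, ENNReal.ofReal (Real.exp (B (cc2 (p := p) (Sum.inr i) x))) =
      (∏ i, ENNReal.ofReal (Real.exp (B (x.1 i)))) * ∏ i, ENNReal.ofReal (Real.exp (B (x.2 i))) :=
    fun x => rfl
  simp only [e1, e2] at key
  refine key.trans ?_
  have h0 := hw 0
  rw [Nat.cast_zero, mul_zero, Real.exp_zero, mul_one] at h0
  have hj : ∀ j : ℕ, ENNReal.ofReal (D * Real.exp (-q * (T0 + (((j + 1 : ℕ) : ℝ) - 1)))) *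
      ∫⁻ x in Bw p n (T0 + ((j + 1 : ℕ) : ℝ)), W x * ((∏ i, ENNReal.ofReal (Real.exp (B (x.1 i)))) *
      ∏ i, ENNReal.ofReal (Real.exp (B (x.2 i)))) ≤
      ENNReal.ofReal (D * Real.exp (-q * T0) * Real.exp (-q * j)) *
        ENNReal.ofReal (A * Real.exp (g * (j + 1))) := by
    intro j
    have h5 := hw (j + 1)
    refine mul_le_mul' (ENNReal.ofReal_le_ofReal (le_of_eq ?_)) ?_
    · push_cast
      rw [mul_assoc, ← Real.exp_add]
      congr 2
      ring
    · push_cast at h5 ⊢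
      exact h5
  have hsum : ∑' j : ℕ, ENNReal.ofReal (D * Real.exp (-q * (T0 + (((j + 1 : ℕ) : ℝ) - 1)))) *
      ∫⁻ x in Bw p n (T0 + ((j + 1 : ℕ) : ℝ)), W x * ((∏ i, ENNReal.ofReal (Real.exp (B (x.1 i)))) *
      ∏ i, ENNReal.ofReal (Real.exp (B (x.2 i)))) ≤
      ENNReal.ofReal (A * (D * Real.exp (-q * T0) * Real.exp g / (1 - Real.exp (-(q - g))))) := by
    refine (ENNReal.tsum_le_tsum hj).trans (le_of_eq ?_)
    exact tsum_shell hA (by positivity) hg
  have h0' : ∫⁻ x in Bw p n (T0 + ((0 : ℕ) : ℝ)), W x * ((∏ i, ENNReal.ofReal (Real.exp (B (x.1 i)))) *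
      ∏ i, ENNReal.ofReal (Real.exp (B (x.2 i)))) ≤ ENNReal.ofReal A := by
    rw [Nat.cast_zero]
    exact h0
  have h6 : 0 < 1 - Real.exp (-(q - g)) := by linarith
  rw [show A * (1 + D * Real.exp (-q * T0) * Real.exp g / (1 - Real.exp (-(q - g)))) =
    A + A * (D * Real.exp (-q * T0) * Real.exp g / (1 - Real.exp (-(q - g)))) by ring,
    ENNReal.ofReal_add hA (by positivity)]
  exact add_le_add h0' hsum

/-- **summation of the shells for the positive gas** -/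
theorem WO_shells {DX DX1 DY DY1 : ℝ → ℂ} (m1 : Measurable DX) (m2 : Measurable DX1) (m3 : Measurable DY)
    (m4 : Measurable DY1) {a a' : ℝ → ℝ} (ma : Measurable a) (ma' : Measurable a') (ha : ∀ t, 0 ≤ a t)
    (ha' : ∀ t, 0 ≤ a' t) {E : (Fin p → ℝ) × (Fin n → ℝ) → ℝ} (mE : Measurable E) (hE : ∀ x, 0 ≤ E x)
    {c B : ℝ → ℝ} (hB : Measurable B) {D q g A T0 : ℝ} (hD : 0 ≤ D) (hA : 0 ≤ A) (hq : 0 < q)
    (hg : g < q) (hB0 : ∀ t, 0 ≤ B t) (h0 : ∀ t, 0 ≤ c t) (h1 : ∀ t, c t ≤ Real.exp (B t))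
    (h2 : ∀ t, c t ≤ D * Real.exp (-q * |t|))
    (hw : ∀ j : ℕ, ∫⁻ x in Bw p n (T0 + j), ENNReal.ofReal (WO DX DX1 DY DY1
      (fun t => a t * Real.exp (B t)) (fun t => a' t * Real.exp (B t)) x.1 x.2 * E x) ≤
      ENNReal.ofReal (A * Real.exp (g * j))) :
    ∫⁻ x, ENNReal.ofReal (WO DX DX1 DY DY1 (fun t => a t * c t) (fun t => a' t * c t) x.1 x.2 * E x)
      ≤ ENNReal.ofReal (A * (1 + D * Real.exp (-q * T0) * Real.exp g / (1 - Real.exp (-(q - g))))) := by
  have key : ∀ (f : ℝ → ℝ), (∀ t, 0 ≤ f t) → ∀ x : (Fin p → ℝ) × (Fin n → ℝ),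
      ENNReal.ofReal (WO DX DX1 DY DY1 (fun t => a t * f t) (fun t => a' t * f t) x.1 x.2 * E x) =
      ENNReal.ofReal (WO DX DX1 DY DY1 a a' x.1 x.2 * E x) *
        ((∏ i, ENNReal.ofReal (f (x.1 i))) * ∏ i, ENNReal.ofReal (f (x.2 i))) := by
    intro f hf x
    rw [WO_mul, ← ENNReal.ofReal_prod_of_nonneg fun i _ => hf _,
      ← ENNReal.ofReal_prod_of_nonneg fun i _ => hf _,
      ← ENNReal.ofReal_mul (Finset.prod_nonneg fun i _ => hf _),
      ← ENNReal.ofReal_mul (mul_nonneg (WO_nonneg _ _ _ _ ha ha' _ _) (hE x))]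
    congr 1
    ring
  simp only [key c h0]
  refine gas_shells (((WO_meas m1 m2 m3 m4 ma ma').mul mE).ennreal_ofReal) hB hD hA hq hg hB0 h1 h2
    fun j => ?_
  refine (le_of_eq (lintegral_congr fun x => ?_)).trans (hw j)
  exact (key (fun t => Real.exp (B t)) (fun t => (Real.exp_pos _).le) x).symm

end

end NU42
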